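import Mathlib

/-!
# The number of labelled graded orders with k ≥ 5 grade levels (MP_ac85ec, Q2)

For every fixed `k ≥ 5`, `log₂ a_k(n) = n²/4 + (1 - (k-5)/2) n + O(log n)` as `n → ∞`.
This is a full positive answer to Q2.

Upper bound. A graded order is determined by its level function and its cover relation, which joins
consecutive levels. Choosing one witness in each level costs a factor `n^k` and each other element
is joined to at most two witnesses; the remaining sum over all level functions is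
`O(2^(m²/4 + 3m/2))`, `m = n - k`, which is shown by looking at the most popular level of odd index
and the most popular level of even index and bounding the loss by a product weight.

Lower bound. Levels 1, 5, 6, ..., k are singletons, levels 2, 3, 4 are large, level 3 has about half
of the elements, and all but a bounded fraction of the edge sets (after forcing `O(log n)` edges)
give a graded order.
-/

namespace Pool.Agent.Results.MP_ac85ec_co.FiveLevels

open Finset

/-- `r` is a (reflexive) partial order on the ground set `Fin n`. -/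
def IsOrder {n : ℕ} (r : Fin n → Fin n → Prop) : Prop :=
  (∀ x, r x x) ∧ (∀ x y, r x y → r y x → x = y) ∧ (∀ x y z, r x y → r y z → r x z)

/-- The strict order `p < q`. -/
def Lt {n : ℕ} (r : Fin n → Fin n → Prop) (p q : Fin n) : Prop := r p q ∧ p ≠ q

/-- `q` covers `p`. -/
def Covers {n : ℕ} (r : Fin n → Fin n → Prop) (p q : Fin n) : Prop :=
  Lt r p q ∧ ¬ ∃ x, Lt r p x ∧ Lt r x q

/-- `g` is a normalised grade map: an order preserving map to the positive integers which
increases by one along covers and takes the value `1` on every component of the comparability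
graph. -/
structure IsGrade {n : ℕ} (r : Fin n → Fin n → Prop) (g : Fin n → ℕ) : Prop where
  pos : ∀ p, 1 ≤ g p
  mono : ∀ p q, r p q → g p ≤ g q
  step : ∀ p q, Covers r p q → g q = g p + 1
  norm : ∀ p, ∃ b, Relation.EqvGen r p b ∧ g b = 1

/-- `r` is a partial order that is graded with exactly `k` grade levels. -/
def GradedWithLevels (k : ℕ) {n : ℕ} (r : Fin n → Fin n → Prop) : Prop :=
  IsOrder r ∧ ∃ g : Fin n → ℕ, IsGrade r g ∧ (Set.range g).ncard = k

/-- The number `a_k(n)` of partial orders on an `n`-element ground set that are graded with exactly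
`k` grade levels. -/
noncomputable def a (k n : ℕ) : ℕ :=
  Nat.card {r : Fin n → Fin n → Prop // GradedWithLevels k r}

/-! ### Orders and their cover relations -/

section structural

variable {n : ℕ}

/-- In a finite order every comparability decomposes into covers. -/
lemma refl_trans_covers {r : Fin n → Fin n → Prop} (hr : IsOrder r) :
    ∀ m : ℕ, ∀ x y, r x y → (Set.ncard {z | Lt r x z ∧ Lt r z y}) = m →
      Relation.ReflTransGen (Covers r) x y := by
  intro m
  induction m using Nat.strong_induction_on with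
  | _ m ih =>
    intro x y hxy hm
    by_cases hne : x = y
    · subst hne; exact Relation.ReflTransGen.refl
    by_cases hc : ∃ z, Lt r x z ∧ Lt r z y
    · obtain ⟨z, hxz, hzy⟩ := hc
      have lt_trans : ∀ {p q s}, Lt r p q → Lt r q s → Lt r p s := by
        intro p q s h1 h2
        refine ⟨hr.2.2 _ _ _ h1.1 h2.1, ?_⟩
        rintro rfl
        exact h1.2 (hr.2.1 _ _ h1.1 h2.1)
      have h1 : Set.ncard {w | Lt r x w ∧ Lt r w z} < m := by
        rw [← hm]
        apply Set.ncard_lt_ncard _ (Set.toFinite _)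
        refine ⟨fun w hw => ⟨hw.1, lt_trans hw.2 hzy⟩, fun h => ?_⟩
        have := h (show z ∈ {w | Lt r x w ∧ Lt r w y} from ⟨hxz, hzy⟩)
        exact this.2.2 rfl
      have h2 : Set.ncard {w | Lt r z w ∧ Lt r w y} < m := by
        rw [← hm]
        apply Set.ncard_lt_ncard _ (Set.toFinite _)
        refine ⟨fun w hw => ⟨lt_trans hxz hw.1, hw.2⟩, fun h => ?_⟩
        have := h (show z ∈ {w | Lt r x w ∧ Lt r w y} from ⟨hxz, hzy⟩)
        exact this.1.2 rfl
      exact (ih _ h1 x z hxz.1 rfl).trans (ih _ h2 z y hzy.1 rfl)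
    · exact Relation.ReflTransGen.single ⟨⟨hxy, hne⟩, hc⟩

lemma covers_gen {r : Fin n → Fin n → Prop} (hr : IsOrder r) {x y : Fin n} (h : r x y) :
    Relation.ReflTransGen (Covers r) x y := refl_trans_covers hr _ x y h rfl

lemma order_eq_of_covers_eq {r r' : Fin n → Fin n → Prop} (hr : IsOrder r) (hr' : IsOrder r')
    (h : ∀ x y, Covers r x y ↔ Covers r' x y) : r = r' := by
  have key : ∀ {s s' : Fin n → Fin n → Prop}, IsOrder s → IsOrder s' →
      (∀ x y, Covers s x y → Covers s' x y) → ∀ x y, s x y → s' x y := by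
    intro s s' hs hs' hcov x y hxy
    have h1 := covers_gen hs hxy
    clear hxy
    induction h1 with
    | refl => exact hs'.1 _
    | tail _ h2 ih => exact hs'.2.2 _ _ _ ih (hcov _ _ h2).1.1
  funext x y
  exact propext ⟨key hr hr' (fun x y => (h x y).1) x y, key hr' hr (fun x y => (h x y).2) x y⟩

/-- The levels of a graded order are consecutive. -/
lemma level_attained {r : Fin n → Fin n → Prop} (hr : IsOrder r) {g : Fin n → ℕ}
    (hg : IsGrade r g) (p : Fin n) (t : ℕ) (ht1 : 1 ≤ t) (ht : t ≤ g p) : ∃ q, g q = t := by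
  by_contra hcon
  push Not at hcon
  have hcov : ∀ x y, Covers r x y → (g x < t ↔ g y < t) := by
    intro x y h
    have h1 := hg.step x y h
    have h2 := hcon x
    have h3 := hcon y
    constructor <;> intro h4 <;> omega
  have hr1 : ∀ x y, r x y → (g x < t ↔ g y < t) := by
    intro x y hxy
    have h1 := covers_gen hr hxy
    clear hxy
    induction h1 with
    | refl => exact Iff.rfl
    | tail _ h2 ih => exact ih.trans (hcov _ _ h2)
  have hr2 : ∀ x y, Relation.EqvGen r x y → (g x < t ↔ g y < t) := by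
    intro x y hxy
    induction hxy with
    | rel x y h => exact hr1 x y h
    | refl x => exact Iff.rfl
    | symm x y _ ih => exact ih.symm
    | trans x y z _ _ ih1 ih2 => exact ih1.trans ih2
  obtain ⟨b, hb, hb1⟩ := hg.norm p
  have h1 := hr2 p b hb
  have h2 := hcon b
  have h3 : g b < t := by omega
  have h4 := h1.2 h3
  omega

lemma range_eq {r : Fin n → Fin n → Prop} (hr : IsOrder r) {g : Fin n → ℕ}
    (hg : IsGrade r g) {k : ℕ} (hk : (Set.range g).ncard = k) :
    Set.range g = Set.Icc 1 k := by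
  classical
  by_cases hn : n = 0
  · subst hn
    have : Set.range g = ∅ := Set.range_eq_empty g
    rw [this] at hk ⊢
    rw [Set.ncard_empty] at hk
    subst hk
    simp
  · have hne : (univ : Finset (Fin n)).Nonempty := ⟨⟨0, by omega⟩, mem_univ _⟩
    obtain ⟨p, -, hp⟩ := exists_max_image univ g hne
    have h1 : Set.range g = Set.Icc 1 (g p) := by
      ext t
      constructor
      · rintro ⟨q, rfl⟩
        exact ⟨hg.pos q, hp q (mem_univ _)⟩
      · rintro ⟨h1, h2⟩
        obtain ⟨q, hq⟩ := level_attained hr hg p t h1 h2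
        exact ⟨q, hq⟩
    have h2 : (Set.Icc 1 (g p)).ncard = g p := by
      rw [← Finset.coe_Icc, Set.ncard_coe_finset, Nat.card_Icc]; omega
    rw [h1, h2] at hk
    rw [h1, hk]

/-- `E` joins consecutive levels of `l` and every component of `E` meets level `0`. -/
def Lev (l : Fin n → ℕ) (E : Fin n → Fin n → Prop) : Prop :=
  (∀ x y, E x y → l y = l x + 1) ∧ ∀ p, ∃ b, Relation.EqvGen E p b ∧ l b = 0

variable {l l' : Fin n → ℕ} {E E' : Fin n → Fin n → Prop}

lemma gen_cases (h : Lev l E) {x y : Fin n} (hxy : Relation.ReflTransGen E x y) :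
    x = y ∨ E x y ∨ (∃ w, Relation.ReflTransGen E x w ∧ x ≠ w ∧ E w y ∧ l x < l w) := by
  induction hxy with
  | refl => exact Or.inl rfl
  | @tail b y hb hby ih =>
    by_cases hxb : x = b
    · subst hxb; exact Or.inr (Or.inl hby)
    · refine Or.inr (Or.inr ⟨b, hb, hxb, hby, ?_⟩)
      rcases ih with h1 | h1 | ⟨w, -, -, hw, hlw⟩
      · exact absurd h1 hxb
      · have := h.1 _ _ h1; omega
      · have := h.1 _ _ hw; omega

lemma gen_lt (h : Lev l E) {x y : Fin n} (hxy : Relation.ReflTransGen E x y) (hne : x ≠ y) :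
    l x < l y := by
  rcases gen_cases h hxy with h1 | h1 | ⟨w, -, -, hw, hlw⟩
  · exact absurd h1 hne
  · have := h.1 _ _ h1; omega
  · have := h.1 _ _ hw; omega

lemma gen_le (h : Lev l E) {x y : Fin n} (hxy : Relation.ReflTransGen E x y) : l x ≤ l y := by
  by_cases hne : x = y
  · rw [hne]
  · exact (gen_lt h hxy hne).le

lemma mem_of_gen (h : Lev l E) {x y : Fin n} (hxy : Relation.ReflTransGen E x y)
    (hl : l x + 1 = l y) : E x y := by
  rcases gen_cases h hxy with h1 | h1 | ⟨w, -, -, hw, hlw⟩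
  · subst h1; omega
  · exact h1
  · have := h.1 _ _ hw; omega

lemma isOrder_gen (h : Lev l E) : IsOrder (Relation.ReflTransGen E) := by
  refine ⟨fun _ => Relation.ReflTransGen.refl, ?_, fun _ _ _ h1 h2 => h1.trans h2⟩
  intro x y hxy hyx
  by_contra hne
  have h1 := gen_lt h hxy hne
  have h2 := gen_le h hyx
  omega

lemma covers_iff (h : Lev l E) (p q : Fin n) : Covers (Relation.ReflTransGen E) p q ↔ E p q := by
  constructor
  · intro hpq
    rcases gen_cases h hpq.1.1 with h1 | h1 | ⟨w, how, hne, hw, hlw⟩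
    · exact absurd h1 hpq.1.2
    · exact h1
    · exfalso
      apply hpq.2
      refine ⟨w, ⟨how, hne⟩, ⟨Relation.ReflTransGen.single hw, ?_⟩⟩
      intro hwq
      have := h.1 _ _ hw
      rw [hwq] at this
      omega
  · intro hpq
    have h1 := h.1 _ _ hpq
    refine ⟨⟨Relation.ReflTransGen.single hpq, ?_⟩, ?_⟩
    · rintro rfl; omega
    · rintro ⟨x, hx1, hx2⟩
      have h2 := gen_lt h hx1.1 hx1.2
      have h3 := gen_lt h hx2.1 hx2.2
      omega

lemma isGrade_gen (h : Lev l E) : IsGrade (Relation.ReflTransGen E) (fun p => l p + 1) where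
  pos := fun p => by omega
  mono := fun p q hpq => by have := gen_le h hpq; simpa using this
  step := by
    intro p q hpq
    have := h.1 _ _ ((covers_iff h p q).1 hpq)
    omega
  norm := by
    intro p
    obtain ⟨b, hb, hb0⟩ := h.2 p
    refine ⟨b, ?_, by omega⟩
    clear hb0
    induction hb with
    | rel x y hxy => exact Relation.EqvGen.rel _ _ (Relation.ReflTransGen.single hxy)
    | refl x => exact Relation.EqvGen.refl x
    | symm x y _ ih => exact Relation.EqvGen.symm _ _ ih
    | trans x y z _ _ ih1 ih2 => exact Relation.EqvGen.trans _ _ _ ih1 ih2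

lemma edge_eq (h : Lev l E) (h' : Lev l' E')
    (e : Relation.ReflTransGen E = Relation.ReflTransGen E') : E = E' := by
  funext x y
  rw [eq_iff_iff, ← covers_iff h, ← covers_iff h', e]

lemma level_eq (h : Lev l E) (h' : Lev l' E')
    (e : Relation.ReflTransGen E = Relation.ReflTransGen E') : l = l' := by
  have hE := edge_eq h h' e
  subst hE
  have hd : ∀ x y, Relation.EqvGen E x y → l x + l' y = l y + l' x := by
    intro x y hxy
    induction hxy with
    | rel x y hxy => have h1 := h.1 _ _ hxy; have h2 := h'.1 _ _ hxy; omega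
    | refl x => omega
    | symm x y _ ih => omega
    | trans x y z _ _ ih1 ih2 => omega
  funext p
  obtain ⟨b, hb, hb0⟩ := h.2 p
  obtain ⟨b', hb', hb0'⟩ := h'.2 p
  have h1 := hd _ _ hb
  have h2 := hd _ _ hb'
  omega

end structural

/-! ### Upper bound: reduction to a sum over level functions -/

section upper1

/-- Pairs in consecutive levels. -/
def P {V : Type*} [Fintype V] {k : ℕ} (g : V → Fin k) : Finset (V × V) :=
  univ.filter (fun x => (g x.2 : ℕ) = g x.1 + 1)

lemma mem_P {V : Type*} [Fintype V] {k : ℕ} (g : V → Fin k) (x : V × V) :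
    x ∈ P g ↔ (g x.2 : ℕ) = g x.1 + 1 := by simp [P]

/-- The sum of `2 ^ (number of pairs in consecutive levels)` over all level functions. -/
noncomputable def F (V : Type*) [Fintype V] [DecidableEq V] (k : ℕ) : ℝ :=
  ∑ g : V → Fin k, (2 : ℝ) ^ (P g).card

lemma a_le (k n : ℕ) : a k n ≤
    ∑ g ∈ (univ : Finset (Fin n → Fin k)).filter Function.Surjective, 2 ^ (P g).card := by
  classical
  have hT : ∑ g ∈ (univ : Finset (Fin n → Fin k)).filter Function.Surjective, 2 ^ (P g).card =
      (((univ : Finset (Fin n → Fin k)).filter Function.Surjective).sigma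
        (fun g => (P g).powerset)).card := by
    rw [card_sigma]
    exact sum_congr rfl (fun g _ => (card_powerset _).symm)
  rw [hT]
  set T := ((univ : Finset (Fin n → Fin k)).filter Function.Surjective).sigma
        (fun g => (P g).powerset) with hTdef
  have h1 : T.card = Nat.card T := by
    rw [Nat.card_eq_fintype_card, Fintype.card_coe]
  rw [h1]
  unfold a
  have key : ∀ r : {r : Fin n → Fin n → Prop // GradedWithLevels k r},
      ∃ g : Fin n → Fin k, Function.Surjective g ∧
        ∀ x y, Covers r.1 x y → (g y : ℕ) = g x + 1 := by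
    rintro ⟨r, hr, g, hg, hk⟩
    have hrange := range_eq hr hg hk
    have hb : ∀ p, g p - 1 < k := by
      intro p
      have : g p ∈ Set.range g := ⟨p, rfl⟩
      rw [hrange] at this
      have h1 := this.1
      have h2 := this.2
      omega
    refine ⟨fun p => ⟨g p - 1, hb p⟩, ?_, ?_⟩
    · intro t
      have : (t : ℕ) + 1 ∈ Set.range g := by
        rw [hrange]
        have := t.2
        exact ⟨by omega, by omega⟩
      obtain ⟨p, hp⟩ := this
      refine ⟨p, Fin.ext ?_⟩
      simp only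
      omega
    · intro x y hxy
      have h1 := hg.step x y hxy
      have h2 := hg.pos x
      simp only
      omega
  choose G hG1 hG2 using key
  let f : {r : Fin n → Fin n → Prop // GradedWithLevels k r} → T := fun r =>
    ⟨⟨G r, univ.filter (fun x : Fin n × Fin n => Covers r.1 x.1 x.2)⟩, by
      rw [hTdef, mem_sigma]
      refine ⟨by simpa using hG1 r, ?_⟩
      rw [mem_powerset]
      intro x hx
      rw [mem_P]
      exact hG2 r _ _ (by simpa using hx)⟩
  refine Nat.card_le_card_of_injective f ?_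
  intro r r' h
  have h2 : (univ.filter (fun x : Fin n × Fin n => Covers r.1 x.1 x.2)) =
      univ.filter (fun x : Fin n × Fin n => Covers r'.1 x.1 x.2) := by
    have h3 := congrArg Subtype.val h
    have h4 : (⟨G r, univ.filter (fun x : Fin n × Fin n => Covers r.1 x.1 x.2)⟩ :
        Σ _ : Fin n → Fin k, Finset (Fin n × Fin n)) =
        ⟨G r', univ.filter (fun x : Fin n × Fin n => Covers r'.1 x.1 x.2)⟩ := h3
    injection h4
  apply Subtype.ext
  apply order_eq_of_covers_eq r.2.1 r'.2.1
  intro x y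
  have h5 := Finset.ext_iff.1 h2 (x, y)
  simpa using h5

/-- Restriction of a level function to the complement of a set of witnesses. -/
lemma card_P_le {k n : ℕ} (w : Fin k → Fin n) (g : Fin n → Fin k) (hg : ∀ t, g (w t) = t) :
    (P g).card ≤ (P (fun x : {x : Fin n // x ∉ Set.range w} => g x)).card + 2 * n := by
  classical
  have hw : ∀ x, x ∈ Set.range w → w (g x) = x := by
    rintro x ⟨t, rfl⟩
    rw [hg]
  have hsplit : P g ⊆ ((P g).filter (fun x => x.1 ∉ Set.range w ∧ x.2 ∉ Set.range w)) ∪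
      (((P g).filter (fun x => x.2 ∈ Set.range w)) ∪
      ((P g).filter (fun x => x.1 ∈ Set.range w))) := by
    intro x hx
    simp only [mem_union, mem_filter]
    by_cases h1 : x.1 ∈ Set.range w
    · exact Or.inr (Or.inr ⟨hx, h1⟩)
    · by_cases h2 : x.2 ∈ Set.range w
      · exact Or.inr (Or.inl ⟨hx, h2⟩)
      · exact Or.inl ⟨hx, h1, h2⟩
  have c1 : ((P g).filter (fun x => x.1 ∉ Set.range w ∧ x.2 ∉ Set.range w)).card ≤
      (P (fun x : {x : Fin n // x ∉ Set.range w} => g x)).card := by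
    have himg : ((P g).filter (fun x => x.1 ∉ Set.range w ∧ x.2 ∉ Set.range w)) ⊆
        (P (fun x : {x : Fin n // x ∉ Set.range w} => g x)).image
          (fun x => ((x.1 : Fin n), (x.2 : Fin n))) := by
      intro x hx
      rw [mem_filter, mem_P] at hx
      rw [mem_image]
      refine ⟨(⟨x.1, hx.2.1⟩, ⟨x.2, hx.2.2⟩), ?_, rfl⟩
      rw [mem_P]
      exact hx.1
    exact (card_le_card himg).trans card_image_le
  have c2 : ((P g).filter (fun x => x.2 ∈ Set.range w)).card ≤ n := by
    have : ((P g).filter (fun x => x.2 ∈ Set.range w)).card ≤ (univ : Finset (Fin n)).card := by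
      apply card_le_card_of_injOn (fun x => x.1) (fun _ _ => mem_univ _)
      intro x hx y hy hxy
      simp only [coe_filter, Set.mem_ofPred_eq, mem_P] at hx hy hxy
      have h1 : g x.2 = g y.2 := by
        apply Fin.ext
        rw [hx.1, hy.1, hxy]
      have h2 : x.2 = y.2 := by rw [← hw _ hx.2, ← hw _ hy.2, h1]
      exact Prod.ext hxy h2
    simpa using this
  have c3 : ((P g).filter (fun x => x.1 ∈ Set.range w)).card ≤ n := by
    have : ((P g).filter (fun x => x.1 ∈ Set.range w)).card ≤ (univ : Finset (Fin n)).card := by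
      apply card_le_card_of_injOn (fun x => x.2) (fun _ _ => mem_univ _)
      intro x hx y hy hxy
      simp only [coe_filter, Set.mem_ofPred_eq, mem_P] at hx hy hxy
      have h1 : g x.1 = g y.1 := by
        apply Fin.ext
        have := hx.1
        rw [hxy, hy.1] at this
        omega
      have h2 : x.1 = y.1 := by rw [← hw _ hx.2, ← hw _ hy.2, h1]
      exact Prod.ext h2 hxy
    simpa using this
  have h1 := card_le_card hsplit
  have h2 := card_union_le ((P g).filter (fun x => x.1 ∉ Set.range w ∧ x.2 ∉ Set.range w))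
      (((P g).filter (fun x => x.2 ∈ Set.range w)) ∪ ((P g).filter (fun x => x.1 ∈ Set.range w)))
  have h3 := card_union_le ((P g).filter (fun x => x.2 ∈ Set.range w))
      ((P g).filter (fun x => x.1 ∈ Set.range w))
  omega

lemma card_compl_range {k n : ℕ} (w : Fin k → Fin n) (hw : Function.Injective w) :
    Fintype.card {x : Fin n // x ∉ Set.range w} = n - k := by
  classical
  rw [Fintype.card_subtype_compl, Fintype.card_fin]
  congr 1
  have : Fintype.card {x : Fin n // x ∈ Set.range w} = Fintype.card (Fin k) :=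
    (Set.card_range_of_injective hw)
  rw [this, Fintype.card_fin]

lemma a_le_sum (k n : ℕ) (B : ℝ) (hB : 0 ≤ B)
    (hF : ∀ w : Fin k → Fin n, Function.Injective w →
      F {x : Fin n // x ∉ Set.range w} k ≤ B) :
    (a k n : ℝ) ≤ (n : ℝ) ^ k * (2 ^ (2 * n) * B) := by
  classical
  have h0 : (a k n : ℝ) ≤
      ∑ g ∈ (univ : Finset (Fin n → Fin k)).filter Function.Surjective, (2 : ℝ) ^ (P g).card := by
    have := a_le k n
    have h2 : ((a k n : ℕ) : ℝ) ≤ ((∑ g ∈ (univ : Finset (Fin n → Fin k)).filter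
      Function.Surjective, 2 ^ (P g).card : ℕ) : ℝ) := by exact_mod_cast this
    refine h2.trans (le_of_eq ?_)
    push_cast
    rfl
  refine h0.trans ?_
  have h1 : ∑ g ∈ (univ : Finset (Fin n → Fin k)).filter Function.Surjective,
      (2 : ℝ) ^ (P g).card ≤ ∑ w : Fin k → Fin n,
        ∑ g ∈ (univ : Finset (Fin n → Fin k)).filter (fun g => ∀ t, g (w t) = t),
          (2 : ℝ) ^ (P g).card := by
    simp only [sum_filter]
    rw [sum_comm]
    apply sum_le_sum
    intro g _
    by_cases hg : Function.Surjective g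
    · rw [if_pos hg]
      obtain ⟨w, hw⟩ := hg.hasRightInverse
      have hw' : ∀ t, g (w t) = t := hw
      calc (2 : ℝ) ^ (P g).card = if (∀ t, g (w t) = t) then (2 : ℝ) ^ (P g).card else 0 := by
            rw [if_pos hw']
        _ ≤ _ := single_le_sum (f := fun w : Fin k → Fin n =>
            if (∀ t, g (w t) = t) then (2 : ℝ) ^ (P g).card else 0)
            (fun w _ => by split_ifs <;> positivity) (mem_univ w)
    · rw [if_neg hg]
      apply sum_nonneg
      intro w _
      split_ifs <;> positivity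
  refine h1.trans ?_
  have h2 : ∀ w : Fin k → Fin n,
      ∑ g ∈ (univ : Finset (Fin n → Fin k)).filter (fun g => ∀ t, g (w t) = t),
          (2 : ℝ) ^ (P g).card ≤ 2 ^ (2 * n) * B := by
    intro w
    by_cases hw : Function.Injective w
    · have hinj : Set.InjOn (fun g : Fin n → Fin k =>
          (fun x : {x : Fin n // x ∉ Set.range w} => g x))
          (((univ : Finset (Fin n → Fin k)).filter (fun g => ∀ t, g (w t) = t) :
            Finset (Fin n → Fin k)) : Set (Fin n → Fin k)) := by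
        intro g hg g' hg' h
        simp only [coe_filter, Set.mem_ofPred_eq, mem_univ, true_and] at hg hg'
        funext x
        by_cases hx : x ∈ Set.range w
        · obtain ⟨t, rfl⟩ := hx
          rw [hg, hg']
        · exact congrFun h ⟨x, hx⟩
      calc ∑ g ∈ (univ : Finset (Fin n → Fin k)).filter (fun g => ∀ t, g (w t) = t),
          (2 : ℝ) ^ (P g).card
          ≤ ∑ g ∈ (univ : Finset (Fin n → Fin k)).filter (fun g => ∀ t, g (w t) = t),
            2 ^ (2 * n) *
              (2 : ℝ) ^ (P (fun x : {x : Fin n // x ∉ Set.range w} => g x)).card := by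
            apply sum_le_sum
            intro g hg
            rw [mem_filter] at hg
            rw [← pow_add]
            apply pow_le_pow_right₀ (by norm_num)
            have := card_P_le w g hg.2
            omega
        _ = 2 ^ (2 * n) * ∑ g' ∈ ((univ : Finset (Fin n → Fin k)).filter
              (fun g => ∀ t, g (w t) = t)).image (fun g : Fin n → Fin k =>
          (fun x : {x : Fin n // x ∉ Set.range w} => g x)), (2 : ℝ) ^ (P g').card := by
            rw [sum_image hinj, mul_sum]
        _ ≤ 2 ^ (2 * n) * F {x : Fin n // x ∉ Set.range w} k := by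
            apply mul_le_mul_of_nonneg_left _ (by positivity)
            unfold F
            apply sum_le_sum_of_subset_of_nonneg (subset_univ _)
            intro i _ _
            positivity
        _ ≤ 2 ^ (2 * n) * B := by
            apply mul_le_mul_of_nonneg_left _ (by positivity)
            exact hF w hw
    · have : (univ : Finset (Fin n → Fin k)).filter (fun g => ∀ t, g (w t) = t) = ∅ := by
        apply filter_eq_empty_iff.2
        intro g _ hg
        apply hw
        intro s t hst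
        rw [← hg s, ← hg t, hst]
      rw [this, sum_empty]
      positivity
  calc ∑ w : Fin k → Fin n,
        ∑ g ∈ (univ : Finset (Fin n → Fin k)).filter (fun g => ∀ t, g (w t) = t),
          (2 : ℝ) ^ (P g).card ≤ ∑ _w : Fin k → Fin n, 2 ^ (2 * n) * B :=
        sum_le_sum (fun w _ => h2 w)
    _ = (n : ℝ) ^ k * (2 ^ (2 * n) * B) := by
      rw [sum_const, card_univ, Fintype.card_fun, Fintype.card_fin, Fintype.card_fin,
        nsmul_eq_mul]
      push_cast
      rfl

end upper1

/-! ### Upper bound: the sum over level functions with given parity classes -/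

section upper2

variable {V : Type*} [Fintype V] [DecidableEq V] {k : ℕ}

/-- Levels allowed for `v` when `A` is the set of elements in levels of odd index. -/
def tt (A : Finset V) (v : V) : Finset (Fin k) :=
  univ.filter (fun s => ((s : ℕ) % 2 = 1 ↔ v ∈ A))

/-- Adjacent levels. -/
def Adj (s t : Fin k) : Prop := (s : ℕ) = t + 1 ∨ (t : ℕ) = s + 1

instance (s t : Fin k) : Decidable (Adj s t) := by unfold Adj; infer_instance

lemma F_eq : F V k =
    ∑ A : Finset V, ∑ g ∈ Fintype.piFinset (tt (k := k) A), (2 : ℝ) ^ (P g).card := by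
  classical
  unfold F
  rw [← sum_fiberwise_of_maps_to (s := (univ : Finset (V → Fin k))) (t := (univ : Finset (Finset V)))
    (g := fun g => univ.filter (fun v => (g v : ℕ) % 2 = 1)) (fun _ _ => mem_univ _)]
  apply sum_congr rfl
  intro A _
  apply sum_congr _ (fun _ _ => rfl)
  ext g
  simp only [mem_filter, mem_univ, true_and, Fintype.mem_piFinset, tt]
  constructor
  · intro h v
    rw [← h]
    simp
  · intro h
    ext v
    simp [h v]

lemma card_P_add {A : Finset V} {g : V → Fin k} (hg : g ∈ Fintype.piFinset (tt A))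
    {Q : Finset (V × V)} (hQ : Q ⊆ A ×ˢ Aᶜ) (hna : ∀ x ∈ Q, ¬ Adj (g x.1) (g x.2)) :
    (P g).card + Q.card ≤ A.card * Aᶜ.card := by
  classical
  have hpar : ∀ v, ((g v : ℕ) % 2 = 1 ↔ v ∈ A) := by
    intro v
    have := Fintype.mem_piFinset.1 hg v
    simpa [tt] using this
  have h1 : (P g).card ≤ ((A ×ˢ Aᶜ) \ Q).card := by
    apply card_le_card_of_injOn (fun x => if x.1 ∈ A then x else (x.2, x.1))
    · intro x hx
      rw [mem_coe, mem_P] at hx
      have p1 := hpar x.1
      have p2 := hpar x.2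
      rw [mem_coe, mem_sdiff, mem_product]
      by_cases h : x.1 ∈ A
      · have h2 : x.2 ∉ A := by
          intro h2
          have := p1.2 h
          have := p2.2 h2
          omega
        simp only [h, if_true]
        refine ⟨⟨trivial, by simpa using h2⟩, fun hq => hna x hq (Or.inr hx)⟩
      · have h2 : x.2 ∈ A := by
          apply p2.1
          have : ¬ (g x.1 : ℕ) % 2 = 1 := fun h3 => h (p1.1 h3)
          omega
        simp only [h, if_false]
        refine ⟨⟨h2, by simpa using h⟩, fun hq => hna _ hq (Or.inl hx)⟩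
    · intro x hx y hy hxy
      rw [mem_coe, mem_P] at hx hy
      by_cases h : x.1 ∈ A <;> by_cases h' : y.1 ∈ A
      · simpa [h, h'] using hxy
      · simp only [h, h', if_true, if_false] at hxy
        rw [hxy] at hx
        simp only at hx
        omega
      · simp only [h, h', if_true, if_false] at hxy
        rw [← hxy] at hy
        simp only at hy
        omega
      · simp only [h, h', if_false] at hxy
        have e1 := congrArg Prod.fst hxy
        have e2 := congrArg Prod.snd hxy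
        exact Prod.ext e2 e1
  rw [card_sdiff_of_subset hQ, card_product] at h1
  have h2 := card_le_card hQ
  rw [card_product] at h2
  omega

/-- Weight of a level. -/
noncomputable def wt (σ τ : Fin k) (p ε : ℝ) (s : Fin k) : ℝ :=
  if s = σ then 1 else if Adj s τ then p else ε

lemma wt_nonneg {σ τ : Fin k} {p ε : ℝ} (hp : 0 ≤ p) (hε : 0 ≤ ε) (s : Fin k) :
    0 ≤ wt σ τ p ε s := by
  unfold wt
  split_ifs <;> first | exact zero_le_one | assumption

lemma sum_wt_le {σ τ : Fin k} (h : Adj σ τ) {p ε : ℝ} (hp : 0 ≤ p) (hε : 0 ≤ ε) :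
    ∑ s, wt σ τ p ε s ≤ 1 + p + k * ε := by
  have h1 : ∀ s : Fin k, wt σ τ p ε s ≤ (if s = σ then 1 else 0) +
      (if (Adj s τ ∧ s ≠ σ) then p else 0) + ε := by
    intro s
    unfold wt
    by_cases h1 : s = σ
    · simp [h1, hε]
    · by_cases h2 : Adj s τ
      · simp [h1, h2, hε]
      · simp [h1, h2]
  refine (sum_le_sum (fun s _ => h1 s)).trans ?_
  rw [sum_add_distrib, sum_add_distrib]
  have e1 : ∑ s : Fin k, (if s = σ then (1 : ℝ) else 0) = 1 := by simp
  have e2 : ∑ s : Fin k, (if (Adj s τ ∧ s ≠ σ) then p else 0) ≤ p := by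
    rw [← sum_filter, sum_const, nsmul_eq_mul]
    have hc : (univ.filter (fun s : Fin k => Adj s τ ∧ s ≠ σ)).card ≤ 1 := by
      rw [card_le_one]
      intro x hx y hy
      simp only [mem_filter, mem_univ, true_and] at hx hy
      obtain ⟨hx1, hx2⟩ := hx
      obtain ⟨hy1, hy2⟩ := hy
      have hx3 : (x : ℕ) ≠ σ := fun h => hx2 (Fin.ext h)
      have hy3 : (y : ℕ) ≠ σ := fun h => hy2 (Fin.ext h)
      apply Fin.ext
      unfold Adj at *
      omega
    have hc' : ((univ.filter (fun s : Fin k => Adj s τ ∧ s ≠ σ)).card : ℝ) ≤ 1 := by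
      exact_mod_cast hc
    nlinarith
  have e3 : ∑ _s : Fin k, ε = k * ε := by simp
  linarith

/-- Product weight. -/
noncomputable def W (A : Finset V) (σ τ : Fin k) (p q ε δ : ℝ) (g : V → Fin k) : ℝ :=
  ∏ v, if v ∈ A then wt σ τ p ε (g v) else wt τ σ q δ (g v)

lemma W_nonneg {A : Finset V} {σ τ : Fin k} {p q ε δ : ℝ} (hp : 0 ≤ p) (hq : 0 ≤ q)
    (hε : 0 ≤ ε) (hδ : 0 ≤ δ) (g : V → Fin k) : 0 ≤ W A σ τ p q ε δ g := by
  unfold W
  apply prod_nonneg
  intro v _
  split_ifs
  · exact wt_nonneg hp hε _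
  · exact wt_nonneg hq hδ _

lemma adj_symm {s t : Fin k} (h : Adj s t) : Adj t s := by unfold Adj at *; omega

lemma sum_W_le {A : Finset V} {σ τ : Fin k} (h : Adj σ τ) {p q ε δ : ℝ} (hp : 0 ≤ p)
    (hq : 0 ≤ q) (hε : 0 ≤ ε) (hδ : 0 ≤ δ) :
    ∑ g : V → Fin k, W A σ τ p q ε δ g ≤
      (1 + p + k * ε) ^ A.card * (1 + q + k * δ) ^ Aᶜ.card := by
  classical
  have h1 : ∑ g : V → Fin k, W A σ τ p q ε δ g =
      ∏ v, ∑ s : Fin k, if v ∈ A then wt σ τ p ε s else wt τ σ q δ s := by
    rw [prod_univ_sum, Fintype.piFinset_univ]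
    rfl
  rw [h1, ← prod_mul_prod_compl A]
  have h2 : ∏ v ∈ A, ∑ s : Fin k, (if v ∈ A then wt σ τ p ε s else wt τ σ q δ s) ≤
      (1 + p + k * ε) ^ A.card := by
    rw [← prod_const]
    apply prod_le_prod
    · intro v hv
      apply sum_nonneg
      intro s _
      split_ifs
      exact wt_nonneg hp hε _
    · intro v hv
      simp only [hv, if_true]
      exact sum_wt_le h hp hε
  have h3 : ∏ v ∈ Aᶜ, ∑ s : Fin k, (if v ∈ A then wt σ τ p ε s else wt τ σ q δ s) ≤
      (1 + q + k * δ) ^ Aᶜ.card := by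
    rw [← prod_const]
    apply prod_le_prod
    · intro v hv
      apply sum_nonneg
      intro s _
      rw [mem_compl] at hv
      split_ifs
      exact wt_nonneg hq hδ _
    · intro v hv
      rw [mem_compl] at hv
      simp only [hv, if_false]
      exact sum_wt_le (adj_symm h) hq hδ
  apply mul_le_mul h2 h3
  · apply prod_nonneg
    intro v hv
    apply sum_nonneg
    intro s _
    split_ifs
    · exact wt_nonneg hp hε _
    · exact wt_nonneg hq hδ _
  · positivity

omit [Fintype V] [DecidableEq V] in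
lemma prod_wt_eq (B : Finset V) {σ τ : Fin k} (h : Adj σ τ) (p ε : ℝ) (g : V → Fin k) :
    ∏ v ∈ B, wt σ τ p ε (g v) = p ^ (B.filter (fun v => Adj (g v) τ ∧ g v ≠ σ)).card *
      ε ^ (B.filter (fun v => ¬ Adj (g v) τ)).card := by
  classical
  unfold wt
  rw [prod_ite, prod_const_one, one_mul, prod_ite, prod_const, prod_const, filter_filter,
    filter_filter]
  congr 3
  · ext v
    simp only [mem_filter]
    tauto
  · ext v
    simp only [mem_filter]
    constructor
    · rintro ⟨h1, h2, h3⟩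
      exact ⟨h1, h3⟩
    · rintro ⟨h1, h3⟩
      refine ⟨h1, ?_, h3⟩
      intro h4
      rw [h4] at h3
      exact h3 h

lemma W_eq (A : Finset V) {σ τ : Fin k} (h : Adj σ τ) (p q ε δ : ℝ) (g : V → Fin k) :
    W A σ τ p q ε δ g =
      p ^ (A.filter (fun v => Adj (g v) τ ∧ g v ≠ σ)).card *
      ε ^ (A.filter (fun v => ¬ Adj (g v) τ)).card *
      (q ^ (Aᶜ.filter (fun v => Adj (g v) σ ∧ g v ≠ τ)).card *
      δ ^ (Aᶜ.filter (fun v => ¬ Adj (g v) σ)).card) := by
  classical
  unfold W
  rw [← prod_mul_prod_compl A, ← prod_wt_eq A h, ← prod_wt_eq Aᶜ (adj_symm h)]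
  congr 1
  · apply prod_congr rfl
    intro v hv
    rw [if_pos hv]
  · apply prod_congr rfl
    intro v hv
    rw [if_neg (by simpa using hv)]

lemma major (x y : ℕ) : ((1 : ℝ) / 2) ^ (x * y) ≤ (0 : ℝ) ^ x * 1 ^ y + 1 ^ x * (0 : ℝ) ^ y +
    4 * ((1 / 4) ^ x * (1 / 2) ^ y) + 4 * ((1 / 2) ^ x * (1 / 4) ^ y) +
    16 * ((1 / 4) ^ x * (1 / 4) ^ y) := by
  have pos : ∀ u v : ℝ, 0 ≤ u → 0 ≤ v → 0 ≤ u ^ x * v ^ y := fun u v hu hv => by positivity
  have q1 := pos 0 1 le_rfl zero_le_one
  have q2 := pos 1 0 zero_le_one le_rfl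
  have q3 := pos (1 / 4) (1 / 2) (by norm_num) (by norm_num)
  have q4 := pos (1 / 2) (1 / 4) (by norm_num) (by norm_num)
  have q5 := pos (1 / 4) (1 / 4) (by norm_num) (by norm_num)
  rcases Nat.eq_zero_or_pos x with hx | hx
  · subst hx
    simp only [zero_mul, pow_zero, one_pow, mul_one, one_mul] at *
    linarith
  rcases Nat.eq_zero_or_pos y with hy | hy
  · subst hy
    simp only [mul_zero, pow_zero, one_pow, mul_one] at *
    linarith
  by_cases hx1 : x = 1
  · subst hx1
    simp only [one_mul, pow_one] at *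
    linarith
  by_cases hy1 : y = 1
  · subst hy1
    simp only [mul_one, pow_one] at *
    linarith
  have hx2 : 2 ≤ x := by omega
  have hy2 : 2 ≤ y := by omega
  have key : ((1 : ℝ) / 2) ^ (x * y) ≤ 16 * ((1 / 4) ^ x * (1 / 4) ^ y) := by
    obtain ⟨x', rfl⟩ := Nat.exists_eq_add_of_le hx2
    obtain ⟨y', rfl⟩ := Nat.exists_eq_add_of_le hy2
    have e : 16 * (((1 : ℝ) / 4) ^ (2 + x') * (1 / 4) ^ (2 + y')) =
        (1 / 2) ^ (4 + 2 * x' + 2 * y') := by
      rw [show (1 : ℝ) / 4 = (1 / 2) ^ 2 by norm_num, ← pow_mul, ← pow_mul,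
        show (16 : ℝ) = ((1 / 2) ^ 4)⁻¹ by norm_num, ← pow_add]
      rw [show 2 * (2 + x') + 2 * (2 + y') = 4 + (4 + 2 * x' + 2 * y') by ring, pow_add _ 4]
      field_simp
    rw [e]
    apply pow_le_pow_of_le_one (by norm_num) (by norm_num)
    nlinarith [Nat.zero_le (x' * y')]
  linarith

/-- Pointwise bound. -/
lemma pointwise {A : Finset V} {g : V → Fin k} (hk : 0 < k) (hg : g ∈ Fintype.piFinset (tt A)) :
    (2 : ℝ) ^ (P g).card ≤ 2 ^ (A.card * Aᶜ.card) * (1 / 2) ^ ((A.card / k) * (Aᶜ.card / k)) +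
      ∑ x ∈ (univ : Finset (Fin k × Fin k)).filter (fun x => Adj x.1 x.2),
        2 ^ (A.card * Aᶜ.card) *
        (W A x.1 x.2 0 1 ((1 / 2) ^ (Aᶜ.card / k)) ((1 / 2) ^ (A.card / k)) g +
         W A x.1 x.2 1 0 ((1 / 2) ^ (Aᶜ.card / k)) ((1 / 2) ^ (A.card / k)) g +
         4 * W A x.1 x.2 (1 / 4) (1 / 2) ((1 / 2) ^ (Aᶜ.card / k)) ((1 / 2) ^ (A.card / k)) g +
         4 * W A x.1 x.2 (1 / 2) (1 / 4) ((1 / 2) ^ (Aᶜ.card / k)) ((1 / 2) ^ (A.card / k)) g +
         16 * W A x.1 x.2 (1 / 4) (1 / 4) ((1 / 2) ^ (Aᶜ.card / k))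
          ((1 / 2) ^ (A.card / k)) g) := by
  classical
  have hne : (univ : Finset (Fin k)).Nonempty := ⟨⟨0, hk⟩, mem_univ _⟩
  obtain ⟨σ, -, hσ⟩ := exists_le_card_fiber_of_mul_le_card_of_maps_to (s := A) (t := univ)
    (f := g) (n := A.card / k) (fun _ _ => mem_univ _) hne
    (by rw [card_univ, Fintype.card_fin]; exact Nat.mul_div_le _ _)
  obtain ⟨τ, -, hτ⟩ := exists_le_card_fiber_of_mul_le_card_of_maps_to (s := Aᶜ) (t := univ)
    (f := g) (n := Aᶜ.card / k) (fun _ _ => mem_univ _) hne
    (by rw [card_univ, Fintype.card_fin]; exact Nat.mul_div_le _ _)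
  have hterm : ∀ x ∈ (univ : Finset (Fin k × Fin k)).filter (fun x => Adj x.1 x.2),
      0 ≤ (2 : ℝ) ^ (A.card * Aᶜ.card) *
        (W A x.1 x.2 0 1 ((1 / 2) ^ (Aᶜ.card / k)) ((1 / 2) ^ (A.card / k)) g +
         W A x.1 x.2 1 0 ((1 / 2) ^ (Aᶜ.card / k)) ((1 / 2) ^ (A.card / k)) g +
         4 * W A x.1 x.2 (1 / 4) (1 / 2) ((1 / 2) ^ (Aᶜ.card / k)) ((1 / 2) ^ (A.card / k)) g +
         4 * W A x.1 x.2 (1 / 2) (1 / 4) ((1 / 2) ^ (Aᶜ.card / k)) ((1 / 2) ^ (A.card / k)) g +
         16 * W A x.1 x.2 (1 / 4) (1 / 4) ((1 / 2) ^ (Aᶜ.card / k))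
          ((1 / 2) ^ (A.card / k)) g) := by
    intro x _
    have w1 := W_nonneg (A := A) (σ := x.1) (τ := x.2) (p := 0) (q := 1)
      (ε := (1 / 2) ^ (Aᶜ.card / k)) (δ := (1 / 2) ^ (A.card / k)) le_rfl zero_le_one
      (by positivity) (by positivity) g
    have w2 := W_nonneg (A := A) (σ := x.1) (τ := x.2) (p := 1) (q := 0)
      (ε := (1 / 2) ^ (Aᶜ.card / k)) (δ := (1 / 2) ^ (A.card / k)) zero_le_one le_rfl
      (by positivity) (by positivity) g
    have w3 := W_nonneg (A := A) (σ := x.1) (τ := x.2) (p := 1 / 4) (q := 1 / 2)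
      (ε := (1 / 2) ^ (Aᶜ.card / k)) (δ := (1 / 2) ^ (A.card / k)) (by norm_num) (by norm_num)
      (by positivity) (by positivity) g
    have w4 := W_nonneg (A := A) (σ := x.1) (τ := x.2) (p := 1 / 2) (q := 1 / 4)
      (ε := (1 / 2) ^ (Aᶜ.card / k)) (δ := (1 / 2) ^ (A.card / k)) (by norm_num) (by norm_num)
      (by positivity) (by positivity) g
    have w5 := W_nonneg (A := A) (σ := x.1) (τ := x.2) (p := 1 / 4) (q := 1 / 4)
      (ε := (1 / 2) ^ (Aᶜ.card / k)) (δ := (1 / 2) ^ (A.card / k)) (by norm_num) (by norm_num)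
      (by positivity) (by positivity) g
    apply mul_nonneg (by positivity)
    linarith
  have half : ∀ e Q T : ℕ, e + Q ≤ T → (2 : ℝ) ^ e ≤ 2 ^ T * (1 / 2) ^ Q := by
    intro e Q T h
    have h1 : (2 : ℝ) ^ (e + Q) ≤ 2 ^ T := pow_le_pow_right₀ (by norm_num) h
    rw [pow_add] at h1
    rw [one_div, inv_pow, ← div_eq_mul_inv, le_div_iff₀ (by positivity)]
    exact h1
  by_cases hadj : Adj σ τ
  · -- adjacent majority levels
    set A' := A.filter (fun v => ¬ Adj (g v) τ) with hA'
    set B' := Aᶜ.filter (fun v => ¬ Adj (g v) σ) with hB'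
    set X := A.filter (fun v => Adj (g v) τ ∧ g v ≠ σ) with hX
    set Y := Aᶜ.filter (fun v => Adj (g v) σ ∧ g v ≠ τ) with hY
    set As := A.filter (fun v => g v = σ) with hAs
    set Bt := Aᶜ.filter (fun v => g v = τ) with hBt
    set Q := (A' ×ˢ Bt) ∪ ((As ×ˢ B') ∪ (X ×ˢ Y)) with hQ
    have d1 : Disjoint (As ×ˢ B') (X ×ˢ Y) := by
      rw [disjoint_left]
      intro x hx hx'
      rw [mem_product] at hx hx'
      have h1 := (mem_filter.1 hx.1).2
      have h2 := (mem_filter.1 hx'.1).2
      exact h2.2 h1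
    have d2 : Disjoint (A' ×ˢ Bt) ((As ×ˢ B') ∪ (X ×ˢ Y)) := by
      rw [disjoint_left]
      intro x hx hx'
      rw [mem_union, mem_product, mem_product] at hx'
      rw [mem_product] at hx
      have h1 := (mem_filter.1 hx.1).2
      rcases hx' with h2 | h2
      · have h3 := (mem_filter.1 h2.1).2
        rw [h3] at h1
        exact h1 hadj
      · have h3 := (mem_filter.1 h2.1).2
        exact h1 h3.1
    have cQ : Q.card = A'.card * Bt.card + (As.card * B'.card + X.card * Y.card) := by
      rw [hQ, card_union_of_disjoint d2, card_union_of_disjoint d1, card_product, card_product,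
        card_product]
    have hQs : Q ⊆ A ×ˢ Aᶜ := by
      intro x hx
      rw [hQ, mem_union, mem_union, mem_product, mem_product, mem_product] at hx
      rw [mem_product]
      rcases hx with h | h | h
      · exact ⟨(mem_filter.1 h.1).1, (mem_filter.1 h.2).1⟩
      · exact ⟨(mem_filter.1 h.1).1, (mem_filter.1 h.2).1⟩
      · exact ⟨(mem_filter.1 h.1).1, (mem_filter.1 h.2).1⟩
    have hna : ∀ x ∈ Q, ¬ Adj (g x.1) (g x.2) := by
      intro x hx
      rw [hQ, mem_union, mem_union, mem_product, mem_product, mem_product] at hx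
      rcases hx with h | h | h
      · have h1 := (mem_filter.1 h.1).2
        have h2 := (mem_filter.1 h.2).2
        rw [h2]; exact h1
      · have h1 := (mem_filter.1 h.1).2
        have h2 := (mem_filter.1 h.2).2
        rw [h1]; exact fun h3 => h2 (adj_symm h3)
      · have h1 := (mem_filter.1 h.1).2
        have h2 := (mem_filter.1 h.2).2
        obtain ⟨h1a, h1b⟩ := h1
        obtain ⟨h2a, h2b⟩ := h2
        have h1c : (g x.1 : ℕ) ≠ σ := fun h => h1b (Fin.ext h)
        have h2c : (g x.2 : ℕ) ≠ τ := fun h => h2b (Fin.ext h)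
        unfold Adj at *
        omega
    have h1 := card_P_add hg hQs hna
    have h2 : (P g).card + (A'.card * (Aᶜ.card / k) + ((A.card / k) * B'.card +
        X.card * Y.card)) ≤ A.card * Aᶜ.card := by
      have e1 : A'.card * (Aᶜ.card / k) ≤ A'.card * Bt.card := Nat.mul_le_mul_left _ hτ
      have e2 : (A.card / k) * B'.card ≤ As.card * B'.card := Nat.mul_le_mul_right _ hσ
      omega
    have h3 := half _ _ _ h2
    have h4 : ((1 : ℝ) / 2) ^ (A'.card * (Aᶜ.card / k) + ((A.card / k) * B'.card +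
        X.card * Y.card)) = ((1 / 2) ^ (Aᶜ.card / k)) ^ A'.card *
          ((1 / 2) ^ (A.card / k)) ^ B'.card * (1 / 2) ^ (X.card * Y.card) := by
      rw [pow_add, pow_add, ← pow_mul, ← pow_mul, mul_comm (Aᶜ.card / k)]
      ring
    have h5 := major X.card Y.card
    have h6 : 0 ≤ (((1 : ℝ) / 2) ^ (Aᶜ.card / k)) ^ A'.card *
          ((1 / 2) ^ (A.card / k)) ^ B'.card := by positivity
    have h7 := mul_le_mul_of_nonneg_left h5 h6
    rw [← h4] at h7
    have h8 : (2 : ℝ) ^ (P g).card ≤ 2 ^ (A.card * Aᶜ.card) *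
        (W A σ τ 0 1 ((1 / 2) ^ (Aᶜ.card / k)) ((1 / 2) ^ (A.card / k)) g +
         W A σ τ 1 0 ((1 / 2) ^ (Aᶜ.card / k)) ((1 / 2) ^ (A.card / k)) g +
         4 * W A σ τ (1 / 4) (1 / 2) ((1 / 2) ^ (Aᶜ.card / k)) ((1 / 2) ^ (A.card / k)) g +
         4 * W A σ τ (1 / 2) (1 / 4) ((1 / 2) ^ (Aᶜ.card / k)) ((1 / 2) ^ (A.card / k)) g +
         16 * W A σ τ (1 / 4) (1 / 4) ((1 / 2) ^ (Aᶜ.card / k))
          ((1 / 2) ^ (A.card / k)) g) := by
      refine h3.trans (mul_le_mul_of_nonneg_left ?_ (by positivity))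
      refine h7.trans (le_of_eq ?_)
      rw [W_eq A hadj, W_eq A hadj, W_eq A hadj, W_eq A hadj, W_eq A hadj]
      ring
    refine h8.trans ?_
    have h9 := single_le_sum hterm (mem_filter.2 ⟨mem_univ (σ, τ), hadj⟩)
    refine le_trans h9 ?_
    have : (0 : ℝ) ≤ 2 ^ (A.card * Aᶜ.card) * (1 / 2) ^ ((A.card / k) * (Aᶜ.card / k)) := by
      positivity
    linarith
  · -- non adjacent majority levels
    set As := A.filter (fun v => g v = σ) with hAs
    set Bt := Aᶜ.filter (fun v => g v = τ) with hBt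
    have h1 := card_P_add hg (Q := As ×ˢ Bt)
      (product_subset_product (filter_subset _ _) (filter_subset _ _)) (by
        intro x hx
        rw [mem_product] at hx
        have h1 := (mem_filter.1 hx.1).2
        have h2 := (mem_filter.1 hx.2).2
        rw [h1, h2]
        exact hadj)
    rw [card_product] at h1
    have h2 : (P g).card + (A.card / k) * (Aᶜ.card / k) ≤ A.card * Aᶜ.card :=
      (Nat.add_le_add_left (Nat.mul_le_mul hσ hτ) _).trans h1
    have h3 := half _ _ _ h2
    have h4 := sum_nonneg hterm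
    linarith

end upper2

/-! ### Upper bound: estimates -/

section upper3

variable {V : Type*} [Fintype V] [DecidableEq V] {k : ℕ}

/-- The five term bound. -/
noncomputable def S5 (a b : ℕ) (u v : ℝ) : ℝ :=
  (1 + 0 + u) ^ a * (1 + 1 + v) ^ b + (1 + 1 + u) ^ a * (1 + 0 + v) ^ b +
  4 * ((1 + 1 / 4 + u) ^ a * (1 + 1 / 2 + v) ^ b) +
  4 * ((1 + 1 / 2 + u) ^ a * (1 + 1 / 4 + v) ^ b) +
  16 * ((1 + 1 / 4 + u) ^ a * (1 + 1 / 4 + v) ^ b)

lemma card_tt_le (A : Finset V) :
    ((Fintype.piFinset (tt (k := k) A)).card : ℝ) ≤ (k : ℝ) ^ Fintype.card V := by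
  have h1 : (Fintype.piFinset (tt (k := k) A)).card ≤ k ^ Fintype.card V := by
    calc _ ≤ (univ : Finset (V → Fin k)).card := card_le_card (subset_univ _)
      _ = k ^ Fintype.card V := by rw [card_univ, Fintype.card_fun, Fintype.card_fin]
  exact_mod_cast h1

lemma ZA_le (hk : 0 < k) (A : Finset V) :
    ∑ g ∈ Fintype.piFinset (tt (k := k) A), (2 : ℝ) ^ (P g).card ≤
      (k : ℝ) ^ Fintype.card V * (2 ^ (A.card * Aᶜ.card) *
        (1 / 2) ^ ((A.card / k) * (Aᶜ.card / k))) +
      (k : ℝ) ^ 2 * (2 ^ (A.card * Aᶜ.card) *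
        S5 A.card Aᶜ.card (k * (1 / 2) ^ (Aᶜ.card / k)) (k * (1 / 2) ^ (A.card / k))) := by
  classical
  set ε : ℝ := (1 / 2) ^ (Aᶜ.card / k) with hε
  set δ : ℝ := (1 / 2) ^ (A.card / k) with hδ
  have hε0 : 0 ≤ ε := by positivity
  have hδ0 : 0 ≤ δ := by positivity
  refine (sum_le_sum (fun g hg => pointwise hk hg)).trans ?_
  rw [sum_add_distrib]
  apply add_le_add
  · rw [sum_const, nsmul_eq_mul]
    exact mul_le_mul_of_nonneg_right (card_tt_le A) (by positivity)
  · rw [sum_comm]
    have hx : ∀ x ∈ (univ : Finset (Fin k × Fin k)).filter (fun x => Adj x.1 x.2),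
        ∑ g ∈ Fintype.piFinset (tt (k := k) A), 2 ^ (A.card * Aᶜ.card) *
        (W A x.1 x.2 0 1 ε δ g + W A x.1 x.2 1 0 ε δ g +
         4 * W A x.1 x.2 (1 / 4) (1 / 2) ε δ g +
         4 * W A x.1 x.2 (1 / 2) (1 / 4) ε δ g +
         16 * W A x.1 x.2 (1 / 4) (1 / 4) ε δ g) ≤
         2 ^ (A.card * Aᶜ.card) * S5 A.card Aᶜ.card (k * ε) (k * δ) := by
      intro x hx
      have hadj := (mem_filter.1 hx).2
      have e : ∀ p q : ℝ, 0 ≤ p → 0 ≤ q →
          ∑ g ∈ Fintype.piFinset (tt (k := k) A), W A x.1 x.2 p q ε δ g ≤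
            (1 + p + k * ε) ^ A.card * (1 + q + k * δ) ^ Aᶜ.card := by
        intro p q hp hq
        refine le_trans ?_ (sum_W_le hadj hp hq hε0 hδ0)
        apply sum_le_sum_of_subset_of_nonneg (subset_univ _)
        intro g _ _
        exact W_nonneg hp hq hε0 hδ0 g
      rw [← mul_sum]
      apply mul_le_mul_of_nonneg_left _ (by positivity)
      rw [sum_add_distrib, sum_add_distrib, sum_add_distrib, sum_add_distrib, ← mul_sum,
        ← mul_sum, ← mul_sum]
      unfold S5
      have e1 := e 0 1 le_rfl zero_le_one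
      have e2 := e 1 0 zero_le_one le_rfl
      have e3 := e (1 / 4) (1 / 2) (by norm_num) (by norm_num)
      have e4 := e (1 / 2) (1 / 4) (by norm_num) (by norm_num)
      have e5 := e (1 / 4) (1 / 4) (by norm_num) (by norm_num)
      exact add_le_add (add_le_add (add_le_add (add_le_add e1 e2)
        (mul_le_mul_of_nonneg_left e3 (by norm_num)))
        (mul_le_mul_of_nonneg_left e4 (by norm_num)))
        (mul_le_mul_of_nonneg_left e5 (by norm_num))
    refine (sum_le_sum hx).trans ?_
    rw [sum_const, nsmul_eq_mul]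
    apply mul_le_mul_of_nonneg_right
    · have : ((univ : Finset (Fin k × Fin k)).filter (fun x => Adj x.1 x.2)).card ≤ k ^ 2 := by
        calc _ ≤ (univ : Finset (Fin k × Fin k)).card := card_le_card (filter_subset _ _)
          _ = k ^ 2 := by rw [card_univ, Fintype.card_prod, Fintype.card_fin]; ring
      exact_mod_cast this
    · unfold S5
      positivity

lemma pow_small {u : ℝ} (hu : 0 ≤ u) {a : ℕ} (h : u * a ≤ 1 / 64) : (1 + u) ^ a ≤ 2 := by
  have h1 : 1 + u ≤ Real.exp u := by have := Real.add_one_le_exp u; linarith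
  calc (1 + u) ^ a ≤ (Real.exp u) ^ a := pow_le_pow_left₀ (by linarith) h1 a
    _ = Real.exp (a * u) := by rw [← Real.exp_nat_mul]
    _ ≤ Real.exp (Real.log 2) := by
      apply Real.exp_le_exp.2
      have := Real.log_two_gt_d9
      linarith
    _ = 2 := Real.exp_log (by norm_num)

lemma two_pow_small {u : ℝ} (hu : 0 ≤ u) {a : ℕ} (h : u * a ≤ 1 / 64) :
    (1 + 1 + u) ^ a ≤ 2 * 2 ^ a := by
  have h1 : (1 + 1 + u) ^ a = 2 ^ a * (1 + u / 2) ^ a := by
    rw [← mul_pow]; congr 1; ring
  rw [h1]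
  have h2 := pow_small (u := u / 2) (by linarith) (a := a) (by
    have : 0 ≤ u * a := by positivity
    linarith)
  have h3 : (0 : ℝ) < 2 ^ a := by positivity
  nlinarith

lemma mixed (a b : ℕ) : ((81 : ℝ) / 64) ^ a * (97 / 64) ^ b ≤ 2 ^ a + 2 ^ b := by
  have pa : (0 : ℝ) < 2 ^ a := by positivity
  have pb : (0 : ℝ) < 2 ^ b := by positivity
  rcases le_total a b with h | h
  · have h1 : ((81 : ℝ) / 64) ^ a ≤ (81 / 64) ^ b := pow_le_pow_right₀ (by norm_num) h
    have h2 : ((81 : ℝ) / 64) ^ a * (97 / 64) ^ b ≤ (81 / 64) ^ b * (97 / 64) ^ b :=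
      mul_le_mul_of_nonneg_right h1 (by positivity)
    rw [← mul_pow] at h2
    have h3 : ((81 : ℝ) / 64 * (97 / 64)) ^ b ≤ 2 ^ b :=
      pow_le_pow_left₀ (by norm_num) (by norm_num) b
    linarith
  · have h1 : ((97 : ℝ) / 64) ^ b ≤ (97 / 64) ^ a := pow_le_pow_right₀ (by norm_num) h
    have h2 : ((81 : ℝ) / 64) ^ a * (97 / 64) ^ b ≤ (81 / 64) ^ a * (97 / 64) ^ a :=
      mul_le_mul_of_nonneg_left h1 (by positivity)
    rw [← mul_pow] at h2
    have h3 : ((81 : ℝ) / 64 * (97 / 64)) ^ a ≤ 2 ^ a :=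
      pow_le_pow_left₀ (by norm_num) (by norm_num) a
    linarith

lemma S5_le {a b m : ℕ} {u v : ℝ} (hm : 1 ≤ m) (ha : a ≤ m) (hb : b ≤ m) (hu0 : 0 ≤ u)
    (hv0 : 0 ≤ v) (hu : u * m ≤ 1 / 64) (hv : v * m ≤ 1 / 64) :
    S5 a b u v ≤ 28 * (2 ^ a + 2 ^ b) := by
  have hm' : (1 : ℝ) ≤ m := by exact_mod_cast hm
  have ha' : (a : ℝ) ≤ m := by exact_mod_cast ha
  have hb' : (b : ℝ) ≤ m := by exact_mod_cast hb
  have hu1 : u ≤ 1 / 64 := by nlinarith
  have hv1 : v ≤ 1 / 64 := by nlinarith
  have hua : u * a ≤ 1 / 64 := by nlinarith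
  have hvb : v * b ≤ 1 / 64 := by nlinarith
  have pa : (0 : ℝ) < 2 ^ a := by positivity
  have pb : (0 : ℝ) < 2 ^ b := by positivity
  have t1 : (1 + 0 + u) ^ a * (1 + 1 + v) ^ b ≤ 4 * 2 ^ b := by
    have h1 := pow_small hu0 hua
    have h2 := two_pow_small hv0 hvb
    rw [add_zero]
    have h3 : (0 : ℝ) ≤ (1 + u) ^ a := by positivity
    have h4 : (0 : ℝ) ≤ (1 + 1 + v) ^ b := by positivity
    nlinarith
  have t2 : (1 + 1 + u) ^ a * (1 + 0 + v) ^ b ≤ 4 * 2 ^ a := by
    have h1 := pow_small hv0 hvb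
    have h2 := two_pow_small hu0 hua
    rw [add_zero]
    have h3 : (0 : ℝ) ≤ (1 + v) ^ b := by positivity
    have h4 : (0 : ℝ) ≤ (1 + 1 + u) ^ a := by positivity
    nlinarith
  have q1 : (1 + 1 / 4 + u) ^ a ≤ (81 / 64) ^ a :=
    pow_le_pow_left₀ (by linarith) (by linarith) a
  have q2 : (1 + 1 / 2 + u) ^ a ≤ (97 / 64) ^ a :=
    pow_le_pow_left₀ (by linarith) (by linarith) a
  have q3 : (1 + 1 / 4 + v) ^ b ≤ (81 / 64) ^ b :=
    pow_le_pow_left₀ (by linarith) (by linarith) b
  have q4 : (1 + 1 / 2 + v) ^ b ≤ (97 / 64) ^ b :=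
    pow_le_pow_left₀ (by linarith) (by linarith) b
  have q5 : ((81 : ℝ) / 64) ^ b ≤ (97 / 64) ^ b :=
    pow_le_pow_left₀ (by norm_num) (by norm_num) b
  have p1 : (0 : ℝ) ≤ (1 + 1 / 4 + v) ^ b := by positivity
  have p2 : (0 : ℝ) ≤ (1 + 1 / 2 + v) ^ b := by positivity
  have m1 := mixed a b
  have m2 := mixed b a
  have t3 : (1 + 1 / 4 + u) ^ a * (1 + 1 / 2 + v) ^ b ≤ 2 ^ a + 2 ^ b :=
    (mul_le_mul q1 q4 p2 (by positivity)).trans m1
  have t4 : (1 + 1 / 2 + u) ^ a * (1 + 1 / 4 + v) ^ b ≤ 2 ^ a + 2 ^ b :=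
    (mul_le_mul q2 q3 p1 (by positivity)).trans (by linarith)
  have t5 : (1 + 1 / 4 + u) ^ a * (1 + 1 / 4 + v) ^ b ≤ 2 ^ a + 2 ^ b :=
    (mul_le_mul q1 (q3.trans q5) p1 (by positivity)).trans m1
  unfold S5
  refine (add_le_add (add_le_add (add_le_add (add_le_add t1 t2)
    (mul_le_mul_of_nonneg_left t3 (by norm_num)))
    (mul_le_mul_of_nonneg_left t4 (by norm_num)))
    (mul_le_mul_of_nonneg_left t5 (by norm_num))).trans (le_of_eq ?_)
  ring

lemma mul_succ_le (a b : ℕ) : a * b + a ≤ (a + b + 1) ^ 2 / 4 := by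
  rw [Nat.le_div_iff_mul_le (by norm_num)]
  zify
  nlinarith [sq_nonneg ((a : ℤ) - b - 1)]

lemma self_le_two_pow (k : ℕ) : k ≤ 2 ^ k := Nat.lt_two_pow_self.le

/-- Balanced classes. -/
lemma small_eps {k m b : ℕ} (hk : 0 < k) (hm : 4096 * k ^ 3 ≤ m) (hb : m ≤ 4 * b) :
    ((k : ℝ) * (1 / 2) ^ (b / k)) * m ≤ 1 / 64 := by
  set j := b / k with hj
  have h1 : b < k * (j + 1) := by
    have := Nat.lt_mul_div_succ b hk
    simpa [hj] using this
  have hk1 : 1 ≤ k := hk
  have hk3 : k ≤ k ^ 3 := Nat.le_self_pow (by norm_num) k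
  have h2 : m ≤ 8 * k * j := by nlinarith
  have h3 : 512 * k ^ 2 ≤ j := by
    by_contra hcon
    push Not at hcon
    have : 8 * k * j < 8 * k * (512 * k ^ 2) := by
      apply Nat.mul_lt_mul_of_pos_left hcon (by positivity)
    nlinarith
  have h4 : 4 ≤ j := by nlinarith [Nat.one_le_pow 2 k hk]
  have h5 : j ^ 2 ≤ 2 ^ j := by
    clear_value j
    clear h1 h2 h3 hj hm hb
    induction j, h4 using Nat.le_induction with
    | base => norm_num
    | succ j hj ih =>
      rw [pow_succ 2 j]
      nlinarith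
  have h6 : 64 * k * m ≤ 2 ^ j := by
    calc 64 * k * m ≤ 64 * k * (8 * k * j) := Nat.mul_le_mul_left _ h2
      _ = 512 * k ^ 2 * j := by ring
      _ ≤ j * j := Nat.mul_le_mul_right _ h3
      _ = j ^ 2 := by ring
      _ ≤ 2 ^ j := h5
  have h7 : (64 : ℝ) * k * m ≤ 2 ^ j := by exact_mod_cast h6
  rw [one_div, inv_pow]
  have h8 : (0 : ℝ) < 2 ^ j := by positivity
  rw [mul_assoc, mul_comm ((2 ^ j : ℝ)⁻¹), ← mul_assoc, ← div_eq_mul_inv, div_le_iff₀ h8]
  linarith

lemma first_term {k m a b : ℕ} (hk : 0 < k) (hm : 4096 * k ^ 3 ≤ m) (ha : m ≤ 4 * a)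
    (hb : m ≤ 4 * b) : (k : ℝ) ^ m * (1 / 2) ^ ((a / k) * (b / k)) ≤ 1 := by
  have key : ∀ c, m ≤ 4 * c → m ≤ 8 * k * (c / k) := by
    intro c hc
    have h1 : c < k * (c / k + 1) := by
      have := Nat.lt_mul_div_succ c hk
      simpa using this
    have hk3 : k ≤ k ^ 3 := Nat.le_self_pow (by norm_num) k
    nlinarith
  have h1 := key a ha
  have h2 := key b hb
  have h3 : k * m ≤ (a / k) * (b / k) := by
    have h4 : m * m ≤ (8 * k * (a / k)) * (8 * k * (b / k)) := Nat.mul_le_mul h1 h2
    have h5 : 64 * k ^ 2 * (k * m) ≤ 64 * k ^ 2 * ((a / k) * (b / k)) := by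
      calc 64 * k ^ 2 * (k * m) = 64 * k ^ 3 * m := by ring
        _ ≤ 4096 * k ^ 3 * m := by nlinarith [Nat.zero_le (k ^ 3 * m)]
        _ ≤ m * m := Nat.mul_le_mul_right _ hm
        _ ≤ _ := h4
        _ = _ := by ring
    exact Nat.le_of_mul_le_mul_left h5 (by positivity)
  have h6 : k ^ m ≤ 2 ^ ((a / k) * (b / k)) := by
    calc k ^ m ≤ (2 ^ k) ^ m := Nat.pow_le_pow_left (self_le_two_pow k) m
      _ = 2 ^ (k * m) := by rw [← pow_mul]
      _ ≤ _ := Nat.pow_le_pow_right (by norm_num) h3
  have h7 : (k : ℝ) ^ m ≤ 2 ^ ((a / k) * (b / k)) := by exact_mod_cast h6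
  rw [one_div, inv_pow, ← div_eq_mul_inv, div_le_one (by positivity)]
  exact h7

lemma ZA_large (hk : 0 < k) (hm : 4096 * k ^ 3 ≤ Fintype.card V) (A : Finset V) :
    ∑ g ∈ Fintype.piFinset (tt (k := k) A), (2 : ℝ) ^ (P g).card ≤
      (1 + 56 * (k : ℝ) ^ 2) * 2 ^ ((Fintype.card V + 1) ^ 2 / 4) := by
  classical
  set m := Fintype.card V with hmdef
  set a := A.card with ha
  set b := Aᶜ.card with hb
  have hab : a + b = m := by rw [ha, hb, card_add_card_compl]
  have hk3 : k ≤ k ^ 3 := Nat.le_self_pow (by norm_num) k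
  have hab1 : a * b + a ≤ (m + 1) ^ 2 / 4 := by rw [← hab]; exact mul_succ_le a b
  have hab2 : a * b + b ≤ (m + 1) ^ 2 / 4 := by
    have := mul_succ_le b a
    rw [← hab, mul_comm a b, add_comm a b]; exact this
  have hpos : (0 : ℝ) < 2 ^ ((m + 1) ^ 2 / 4) := by positivity
  by_cases hbal : m ≤ 4 * a ∧ m ≤ 4 * b
  · refine (ZA_le hk A).trans ?_
    rw [← ha, ← hb, ← hmdef]
    have h1 := first_term hk hm hbal.1 hbal.2
    have h2 := small_eps hk hm hbal.2
    have h3 := small_eps hk hm hbal.1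
    have h4 := S5_le (a := a) (b := b) (m := m) (u := k * (1 / 2) ^ (b / k))
      (v := k * (1 / 2) ^ (a / k)) (by nlinarith) (by omega) (by omega) (by positivity)
      (by positivity) h2 h3
    have h5 : (2 : ℝ) ^ (a * b) * (2 ^ a + 2 ^ b) ≤ 2 * 2 ^ ((m + 1) ^ 2 / 4) := by
      have e1 : (2 : ℝ) ^ (a * b + a) ≤ 2 ^ ((m + 1) ^ 2 / 4) :=
        pow_le_pow_right₀ (by norm_num) hab1
      have e2 : (2 : ℝ) ^ (a * b + b) ≤ 2 ^ ((m + 1) ^ 2 / 4) :=
        pow_le_pow_right₀ (by norm_num) hab2
      rw [pow_add] at e1 e2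
      linarith
    have h6 : (2 : ℝ) ^ (a * b) ≤ 2 ^ ((m + 1) ^ 2 / 4) :=
      pow_le_pow_right₀ (by norm_num) (by omega)
    have h7 : (k : ℝ) ^ m * (2 ^ (a * b) * (1 / 2) ^ (a / k * (b / k))) ≤
        2 ^ ((m + 1) ^ 2 / 4) := by
      calc (k : ℝ) ^ m * (2 ^ (a * b) * (1 / 2) ^ (a / k * (b / k))) =
          2 ^ (a * b) * ((k : ℝ) ^ m * (1 / 2) ^ (a / k * (b / k))) := by ring
        _ ≤ 2 ^ (a * b) * 1 := mul_le_mul_of_nonneg_left h1 (by positivity)
        _ ≤ _ := by rw [mul_one]; exact h6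
    have h8 : (2 : ℝ) ^ (a * b) *
        S5 a b (k * (1 / 2) ^ (b / k)) (k * (1 / 2) ^ (a / k)) ≤
        56 * 2 ^ ((m + 1) ^ 2 / 4) := by
      calc _ ≤ (2 : ℝ) ^ (a * b) * (28 * (2 ^ a + 2 ^ b)) :=
            mul_le_mul_of_nonneg_left h4 (by positivity)
        _ = 28 * (2 ^ (a * b) * (2 ^ a + 2 ^ b)) := by ring
        _ ≤ _ := by linarith
    have h9 : (k : ℝ) ^ 2 * (2 ^ (a * b) *
        S5 a b (k * (1 / 2) ^ (b / k)) (k * (1 / 2) ^ (a / k))) ≤
        k ^ 2 * (56 * 2 ^ ((m + 1) ^ 2 / 4)) := mul_le_mul_of_nonneg_left h8 (by positivity)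
    refine (add_le_add h7 h9).trans (le_of_eq ?_)
    generalize (2 : ℝ) ^ ((m + 1) ^ 2 / 4) = z
    ring
  · -- unbalanced classes
    have h1 : ∀ g ∈ Fintype.piFinset (tt (k := k) A), (2 : ℝ) ^ (P g).card ≤ 2 ^ (a * b) := by
      intro g hg
      apply pow_le_pow_right₀ (by norm_num)
      have := card_P_add hg (Q := ∅) (empty_subset _) (by simp)
      simpa using this
    have h2 : k * m + a * b ≤ (m + 1) ^ 2 / 4 := by
      rw [Nat.le_div_iff_mul_le (by norm_num)]
      have hkm : 16 * (k * m) ≤ m * m := by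
        have : 16 * k ≤ m := by omega
        nlinarith
      have h3 : 4 * a < m ∨ 4 * b < m := by omega
      have h4 : 16 * (a * b) ≤ 3 * (m * m) := by
        rcases h3 with h3 | h3
        · have : b = m - a := by omega
          have h5 : a ≤ m := by omega
          zify [h5] at *
          rw [this]
          nlinarith
        · have : a = m - b := by omega
          have h5 : b ≤ m := by omega
          zify [h5] at *
          rw [this]
          nlinarith
      nlinarith
    calc ∑ g ∈ Fintype.piFinset (tt (k := k) A), (2 : ℝ) ^ (P g).card ≤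
        ∑ _g ∈ Fintype.piFinset (tt (k := k) A), (2 : ℝ) ^ (a * b) := sum_le_sum h1
      _ = (Fintype.piFinset (tt (k := k) A)).card * (2 : ℝ) ^ (a * b) := by
          rw [sum_const, nsmul_eq_mul]
      _ ≤ (k : ℝ) ^ m * 2 ^ (a * b) :=
          mul_le_mul_of_nonneg_right (card_tt_le A) (by positivity)
      _ ≤ (2 ^ k) ^ m * 2 ^ (a * b) := by
          apply mul_le_mul_of_nonneg_right _ (by positivity)
          apply pow_le_pow_left₀ (by positivity)
          exact_mod_cast self_le_two_pow k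
      _ = 2 ^ (k * m + a * b) := by rw [← pow_mul, ← pow_add]
      _ ≤ 2 ^ ((m + 1) ^ 2 / 4) := pow_le_pow_right₀ (by norm_num) h2
      _ ≤ _ := by
          have : (0 : ℝ) ≤ 56 * (k : ℝ) ^ 2 := by positivity
          nlinarith

/-- The constant of the upper bound. -/
noncomputable def Cst (k : ℕ) : ℝ :=
  1 + 56 * (k : ℝ) ^ 2 + (k : ℝ) ^ (4096 * k ^ 3) * 2 ^ ((4096 * k ^ 3) ^ 2)

lemma F_le (hk : 0 < k) :
    F V k ≤ Cst k * (2 ^ Fintype.card V * 2 ^ ((Fintype.card V + 1) ^ 2 / 4)) := by
  classical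
  set m := Fintype.card V with hm
  have hk1 : (1 : ℝ) ≤ k := by exact_mod_cast hk
  have hc2 : (0 : ℝ) ≤ (k : ℝ) ^ (4096 * k ^ 3) * 2 ^ ((4096 * k ^ 3) ^ 2) := by positivity
  have hc1 : (0 : ℝ) ≤ 1 + 56 * (k : ℝ) ^ 2 := by positivity
  by_cases hlarge : 4096 * k ^ 3 ≤ m
  · rw [F_eq]
    refine (sum_le_sum (fun A _ => ZA_large hk hlarge A)).trans ?_
    rw [sum_const, nsmul_eq_mul, card_univ, Fintype.card_finset, ← hm]
    push_cast
    calc (2 : ℝ) ^ m * ((1 + 56 * (k : ℝ) ^ 2) * 2 ^ ((m + 1) ^ 2 / 4)) =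
        (1 + 56 * (k : ℝ) ^ 2) * (2 ^ m * 2 ^ ((m + 1) ^ 2 / 4)) := by ring
      _ ≤ Cst k * (2 ^ m * 2 ^ ((m + 1) ^ 2 / 4)) := by
        apply mul_le_mul_of_nonneg_right _ (by positivity)
        unfold Cst
        linarith
  · push Not at hlarge
    have h1 : ∀ g : V → Fin k, (2 : ℝ) ^ (P g).card ≤ 2 ^ ((4096 * k ^ 3) ^ 2) := by
      intro g
      apply pow_le_pow_right₀ (by norm_num)
      calc (P g).card ≤ (univ : Finset (V × V)).card := card_le_card (subset_univ _)
        _ = m ^ 2 := by rw [card_univ, Fintype.card_prod, ← hm]; ring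
        _ ≤ _ := Nat.pow_le_pow_left hlarge.le 2
    have h2 : F V k ≤ (k : ℝ) ^ m * 2 ^ ((4096 * k ^ 3) ^ 2) := by
      unfold F
      refine (sum_le_sum (fun g _ => h1 g)).trans ?_
      rw [sum_const, nsmul_eq_mul, card_univ, Fintype.card_fun, Fintype.card_fin]
      push_cast
      rfl
    have h3 : (k : ℝ) ^ m ≤ (k : ℝ) ^ (4096 * k ^ 3) := pow_le_pow_right₀ hk1 hlarge.le
    have h4 : (1 : ℝ) ≤ 2 ^ m * 2 ^ ((m + 1) ^ 2 / 4) := by
      have e1 : (1 : ℝ) ≤ 2 ^ m := one_le_pow₀ (by norm_num)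
      have e2 : (1 : ℝ) ≤ 2 ^ ((m + 1) ^ 2 / 4) := one_le_pow₀ (by norm_num)
      nlinarith
    calc F V k ≤ (k : ℝ) ^ m * 2 ^ ((4096 * k ^ 3) ^ 2) := h2
      _ ≤ (k : ℝ) ^ (4096 * k ^ 3) * 2 ^ ((4096 * k ^ 3) ^ 2) :=
        mul_le_mul_of_nonneg_right h3 (by positivity)
      _ ≤ Cst k := by unfold Cst; linarith
      _ = Cst k * 1 := by ring
      _ ≤ _ := by
        apply mul_le_mul_of_nonneg_left h4
        unfold Cst
        linarith

lemma a_upper (k n : ℕ) (hk : 0 < k) :
    (a k n : ℝ) ≤ (n : ℝ) ^ k * (2 ^ (2 * n) *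
      (Cst k * (2 ^ (n - k) * 2 ^ ((n - k + 1) ^ 2 / 4)))) := by
  apply a_le_sum
  · unfold Cst
    positivity
  · intro w hw
    have h := F_le (V := {x : Fin n // x ∉ Set.range w}) hk
    rw [card_compl_range w hw] at h
    exact h

end upper3

/-! ### Lower bound -/

section lower

variable {n : ℕ}

/-- Pairs in consecutive levels of `l`. -/
def PL (l : Fin n → ℕ) : Finset (Fin n × Fin n) :=
  univ.filter (fun x => l x.2 = l x.1 + 1)

lemma mem_PL (l : Fin n → ℕ) (x : Fin n × Fin n) : x ∈ PL l ↔ l x.2 = l x.1 + 1 := by simp [PL]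

/-- The hypotheses on a level function used for the lower bound. -/
structure Base (k L : ℕ) (v : ℕ → Fin n) (S0 Y0 : Finset (Fin n)) (l : Fin n → ℕ) : Prop where
  lt : ∀ p, l p < k
  v_lev : ∀ j, j < k → l (v j) = j
  zero : ∀ p, l p = 0 → p = v 0
  big : ∀ p, 4 ≤ l p → p = v (l p)
  S_lev : ∀ p ∈ S0, l p = 1
  Y_lev : ∀ p ∈ Y0, l p = 2
  S_card : S0.card = L
  Y_card : L ≤ Y0.card

/-- Forced edges. -/
def Fo (k : ℕ) (v : ℕ → Fin n) (S0 : Finset (Fin n)) : Finset (Fin n × Fin n) :=
  S0.image (fun s => (v 0, s)) ∪ (Finset.Ico 3 (k - 1)).image (fun j => (v j, v (j + 1)))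

/-- Edges from `p` to the core. -/
def Q (S0 Y0 : Finset (Fin n)) (l : Fin n → ℕ) (p : Fin n) : Finset (Fin n × Fin n) :=
  if l p = 1 then Y0.image (fun y => (p, y)) else
    if l p = 2 then S0.image (fun s => (s, p)) else Y0.image (fun y => (y, p))

/-- Free parts of good edge sets. -/
def good (k : ℕ) (v : ℕ → Fin n) (S0 Y0 : Finset (Fin n)) (l : Fin n → ℕ) :
    Finset (Finset (Fin n × Fin n)) :=
  (PL l \ Fo k v S0).powerset.filter
    (fun E => ∀ p, 1 ≤ l p → l p ≤ 3 → (E ∩ Q S0 Y0 l p).Nonempty)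

variable {k L : ℕ} {v : ℕ → Fin n} {S0 Y0 : Finset (Fin n)} {l : Fin n → ℕ}

lemma card_Fo_le (hS : S0.card = L) : (Fo k v S0).card ≤ L + k := by
  unfold Fo
  refine (card_union_le _ _).trans ?_
  have h1 : (S0.image (fun s => (v 0, s))).card ≤ L := card_image_le.trans hS.le
  have h2 : ((Finset.Ico 3 (k - 1)).image (fun j => (v j, v (j + 1)))).card ≤ k := by
    refine card_image_le.trans ?_
    rw [Nat.card_Ico]
    omega
  omega

lemma Q_subset (hk : 5 ≤ k) (h : Base k L v S0 Y0 l) (p : Fin n) (h1 : 1 ≤ l p) (h3 : l p ≤ 3) :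
    Q S0 Y0 l p ⊆ PL l \ Fo k v S0 := by
  intro x hx
  rw [mem_sdiff, mem_PL]
  have hlev : l x.2 = l x.1 + 1 ∧ 1 ≤ l x.1 ∧ l x.1 ≤ 2 := by
    unfold Q at hx
    split_ifs at hx with ha hb
    · obtain ⟨y, hy, rfl⟩ := mem_image.1 hx
      have := h.Y_lev y hy
      simp only
      omega
    · obtain ⟨y, hy, rfl⟩ := mem_image.1 hx
      have := h.S_lev y hy
      simp only
      omega
    · obtain ⟨y, hy, rfl⟩ := mem_image.1 hx
      have := h.Y_lev y hy
      simp only
      omega
  refine ⟨hlev.1, ?_⟩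
  intro hF
  unfold Fo at hF
  rw [mem_union, mem_image, mem_image] at hF
  rcases hF with ⟨s, hs, rfl⟩ | ⟨j, hj, rfl⟩
  · have := h.v_lev 0 (by omega)
    simp only at hlev
    omega
  · rw [mem_Ico] at hj
    have := h.v_lev j (by omega)
    simp only at hlev
    omega

lemma card_Q (h : Base k L v S0 Y0 l) (p : Fin n) : L ≤ (Q S0 Y0 l p).card := by
  unfold Q
  split_ifs
  · rw [card_image_of_injective _ (fun a b hab => by simpa using hab)]
    exact h.Y_card
  · rw [card_image_of_injective _ (fun a b hab => by simpa using hab)]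
    exact h.S_card.ge
  · rw [card_image_of_injective _ (fun a b hab => by simpa using hab)]
    exact h.Y_card

lemma card_good (hk : 5 ≤ k) (h : Base k L v S0 Y0 l) (hL : 2 * n ≤ 2 ^ L) :
    2 ^ (PL l \ Fo k v S0).card ≤ 2 * (good k v S0 Y0 l).card := by
  classical
  set P' := PL l \ Fo k v S0 with hP'
  set M := univ.filter (fun p : Fin n => 1 ≤ l p ∧ l p ≤ 3) with hM
  have hcov : P'.powerset ⊆ good k v S0 Y0 l ∪
      M.biUnion (fun p => (P' \ Q S0 Y0 l p).powerset) := by
    intro E hE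
    by_cases hg : E ∈ good k v S0 Y0 l
    · exact mem_union_left _ hg
    · apply mem_union_right
      unfold good at hg
      rw [mem_filter, not_and] at hg
      have h1 := hg hE
      push Not at h1
      obtain ⟨p, hp1, hp2, hp3⟩ := h1
      rw [mem_biUnion]
      refine ⟨p, by simp [hM, hp1, hp2], ?_⟩
      rw [mem_powerset] at hE ⊢
      intro x hx
      rw [mem_sdiff]
      refine ⟨hE hx, fun hq => ?_⟩
      have : x ∈ E ∩ Q S0 Y0 l p := mem_inter.2 ⟨hx, hq⟩
      rw [hp3] at this
      exact absurd this (notMem_empty _)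
  have hbad : ∀ p ∈ M, ((P' \ Q S0 Y0 l p).powerset).card * 2 ^ L ≤ 2 ^ P'.card := by
    intro p hp
    rw [hM, mem_filter] at hp
    have hs := Q_subset hk h p hp.2.1 hp.2.2
    rw [card_powerset, card_sdiff_of_subset hs, ← pow_add]
    apply Nat.pow_le_pow_right (by norm_num)
    have h1 := card_le_card hs
    have h2 := card_Q h p
    rw [← hP'] at h1 ⊢
    omega
  have h1 := card_le_card hcov
  have h2 := card_union_le (good k v S0 Y0 l) (M.biUnion (fun p => (P' \ Q S0 Y0 l p).powerset))
  have h3 : (M.biUnion (fun p => (P' \ Q S0 Y0 l p).powerset)).card * 2 ^ L ≤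
      n * 2 ^ P'.card := by
    calc (M.biUnion (fun p => (P' \ Q S0 Y0 l p).powerset)).card * 2 ^ L ≤
        (∑ p ∈ M, ((P' \ Q S0 Y0 l p).powerset).card) * 2 ^ L :=
          Nat.mul_le_mul_right _ card_biUnion_le
      _ = ∑ p ∈ M, ((P' \ Q S0 Y0 l p).powerset).card * 2 ^ L := sum_mul _ _ _
      _ ≤ ∑ _p ∈ M, 2 ^ P'.card := sum_le_sum hbad
      _ = M.card * 2 ^ P'.card := by rw [sum_const, smul_eq_mul]
      _ ≤ n * 2 ^ P'.card := by
        apply Nat.mul_le_mul_right
        calc M.card ≤ (univ : Finset (Fin n)).card := card_le_card (filter_subset _ _)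
          _ = n := by rw [card_univ, Fintype.card_fin]
  rw [card_powerset] at h1
  set B := (M.biUnion (fun p => (P' \ Q S0 Y0 l p).powerset)).card with hB
  have h4 : 2 * B * 2 ^ L ≤ 2 ^ P'.card * 2 ^ L := by
    calc 2 * B * 2 ^ L = 2 * (B * 2 ^ L) := by ring
      _ ≤ 2 * (n * 2 ^ P'.card) := Nat.mul_le_mul_left _ h3
      _ = (2 * n) * 2 ^ P'.card := by ring
      _ ≤ 2 ^ L * 2 ^ P'.card := Nat.mul_le_mul_right _ hL
      _ = _ := by ring
  have h5 : 2 * B ≤ 2 ^ P'.card := Nat.le_of_mul_le_mul_right h4 (by positivity)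
  omega

lemma lev_good (hk : 5 ≤ k) (h : Base k L v S0 Y0 l) {E : Finset (Fin n × Fin n)}
    (hE : E ∈ good k v S0 Y0 l) : Lev l (fun x y => (x, y) ∈ E ∪ Fo k v S0) := by
  classical
  unfold good at hE
  rw [mem_filter, mem_powerset] at hE
  obtain ⟨hE1, hE2⟩ := hE
  refine ⟨?_, ?_⟩
  · intro x y hxy
    rw [mem_union] at hxy
    rcases hxy with h1 | h1
    · exact (mem_PL l _).1 (mem_sdiff.1 (hE1 h1)).1
    · unfold Fo at h1
      rw [mem_union, mem_image, mem_image] at h1
      rcases h1 with ⟨s, hs, he⟩ | ⟨j, hj, he⟩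
      · have e1 := congrArg Prod.fst he
        have e2 := congrArg Prod.snd he
        simp only at e1 e2
        rw [← e1, ← e2, h.S_lev s hs, h.v_lev 0 (by omega)]
      · have e1 := congrArg Prod.fst he
        have e2 := congrArg Prod.snd he
        simp only at e1 e2
        rw [mem_Ico] at hj
        rw [← e1, ← e2, h.v_lev j (by omega), h.v_lev (j + 1) (by omega)]
  · -- connectivity
    set R : Fin n → Fin n → Prop := fun x y => (x, y) ∈ E ∪ Fo k v S0 with hR
    have hv0 : l (v 0) = 0 := h.v_lev 0 (by omega)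
    suffices hs : ∀ p, Relation.EqvGen R p (v 0) from fun p => ⟨v 0, hs p, hv0⟩
    have cS : ∀ s ∈ S0, Relation.EqvGen R s (v 0) := by
      intro s hs
      apply Relation.EqvGen.symm
      apply Relation.EqvGen.rel
      rw [hR]
      simp only
      apply mem_union_right
      unfold Fo
      exact mem_union_left _ (mem_image_of_mem _ hs)
    have c2 : ∀ p, l p = 2 → Relation.EqvGen R p (v 0) := by
      intro p hp
      obtain ⟨x, hx⟩ := hE2 p (by omega) (by omega)
      rw [mem_inter] at hx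
      obtain ⟨hx1, hx2⟩ := hx
      unfold Q at hx2
      rw [if_neg (by omega), if_pos hp] at hx2
      obtain ⟨s, hs, rfl⟩ := mem_image.1 hx2
      refine Relation.EqvGen.trans _ s _ ?_ (cS s hs)
      apply Relation.EqvGen.symm
      apply Relation.EqvGen.rel
      exact mem_union_left _ hx1
    have c1 : ∀ p, l p = 1 → Relation.EqvGen R p (v 0) := by
      intro p hp
      obtain ⟨x, hx⟩ := hE2 p (by omega) (by omega)
      rw [mem_inter] at hx
      obtain ⟨hx1, hx2⟩ := hx
      unfold Q at hx2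
      rw [if_pos hp] at hx2
      obtain ⟨y, hy, rfl⟩ := mem_image.1 hx2
      refine Relation.EqvGen.trans _ y _ ?_ (c2 y (h.Y_lev y hy))
      apply Relation.EqvGen.rel
      exact mem_union_left _ hx1
    have c3 : ∀ p, l p = 3 → Relation.EqvGen R p (v 0) := by
      intro p hp
      obtain ⟨x, hx⟩ := hE2 p (by omega) (by omega)
      rw [mem_inter] at hx
      obtain ⟨hx1, hx2⟩ := hx
      unfold Q at hx2
      rw [if_neg (by omega), if_neg (by omega)] at hx2
      obtain ⟨y, hy, rfl⟩ := mem_image.1 hx2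
      refine Relation.EqvGen.trans _ y _ ?_ (c2 y (h.Y_lev y hy))
      apply Relation.EqvGen.symm
      apply Relation.EqvGen.rel
      exact mem_union_left _ hx1
    have c4 : ∀ j, 3 ≤ j → j < k → Relation.EqvGen R (v j) (v 0) := by
      intro j hj
      induction j, hj using Nat.le_induction with
      | base =>
        intro h3
        exact c3 _ (h.v_lev 3 h3)
      | succ j hj ih =>
        intro hjk
        refine Relation.EqvGen.trans _ (v j) _ ?_ (ih (by omega))
        apply Relation.EqvGen.symm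
        apply Relation.EqvGen.rel
        rw [hR]
        simp only
        apply mem_union_right
        unfold Fo
        apply mem_union_right
        exact mem_image_of_mem (fun j => (v j, v (j + 1))) (mem_Ico.2 ⟨hj, by omega⟩)
    intro p
    have hlt := h.lt p
    by_cases h0 : l p = 0
    · rw [h.zero p h0]; exact Relation.EqvGen.refl _
    by_cases h1 : l p = 1
    · exact c1 p h1
    by_cases h2 : l p = 2
    · exact c2 p h2
    by_cases h3 : l p = 3
    · exact c3 p h3
    · rw [h.big p (by omega)]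
      exact c4 _ (by omega) hlt

lemma graded_good (hk : 5 ≤ k) (h : Base k L v S0 Y0 l) {E : Finset (Fin n × Fin n)}
    (hE : E ∈ good k v S0 Y0 l) :
    GradedWithLevels k (Relation.ReflTransGen (fun x y => (x, y) ∈ E ∪ Fo k v S0)) := by
  have hlev := lev_good hk h hE
  refine ⟨isOrder_gen hlev, _, isGrade_gen hlev, ?_⟩
  have : Set.range (fun p => l p + 1) = ((Finset.Icc 1 k : Finset ℕ) : Set ℕ) := by
    ext m
    simp only [Set.mem_range, Finset.coe_Icc, Set.mem_Icc]
    constructor
    · rintro ⟨p, rfl⟩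
      have := h.lt p
      omega
    · rintro ⟨h1, h4⟩
      refine ⟨v (m - 1), ?_⟩
      rw [h.v_lev (m - 1) (by omega)]
      omega
  rw [this, Set.ncard_coe_finset, Nat.card_Icc]
  omega

/-- A family of level functions gives a lower bound. -/
lemma family_le {ι : Type*} [DecidableEq ι] (hk : 5 ≤ k) (I : Finset ι) (lf : ι → Fin n → ℕ)
    (hI : ∀ i ∈ I, Base k L v S0 Y0 (lf i))
    (hinj : ∀ i ∈ I, ∀ j ∈ I, lf i = lf j → i = j) :
    ∑ i ∈ I, (good k v S0 Y0 (lf i)).card ≤ a k n := by
  classical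
  have h1 : ∑ i ∈ I, (good k v S0 Y0 (lf i)).card =
      (I.sigma (fun i => good k v S0 Y0 (lf i))).card := by rw [card_sigma]
  rw [h1]
  have h2 : (I.sigma (fun i => good k v S0 Y0 (lf i))).card =
      Nat.card (I.sigma (fun i => good k v S0 Y0 (lf i))) := by
    rw [Nat.card_eq_fintype_card, Fintype.card_coe]
  rw [h2]
  unfold a
  have hmem : ∀ d : (I.sigma (fun i => good k v S0 Y0 (lf i))), d.1.1 ∈ I ∧
      d.1.2 ∈ good k v S0 Y0 (lf d.1.1) := by
    intro d
    have := d.2
    rw [mem_sigma] at this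
    exact this
  refine Nat.card_le_card_of_injective
    (fun d => ⟨Relation.ReflTransGen (fun x y => (x, y) ∈ d.1.2 ∪ Fo k v S0),
      graded_good hk (hI _ (hmem d).1) (hmem d).2⟩) ?_
  intro d d' hdd
  have e : Relation.ReflTransGen (fun x y => (x, y) ∈ d.1.2 ∪ Fo k v S0) =
      Relation.ReflTransGen (fun x y => (x, y) ∈ d'.1.2 ∪ Fo k v S0) :=
    congrArg Subtype.val hdd
  have g1 := lev_good hk (hI _ (hmem d).1) (hmem d).2
  have g2 := lev_good hk (hI _ (hmem d').1) (hmem d').2
  have hl := level_eq g1 g2 e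
  have hE := edge_eq g1 g2 e
  have hi := hinj _ (hmem d).1 _ (hmem d').1 hl
  have hEE : d.1.2 = d'.1.2 := by
    have s1 : Disjoint d.1.2 (Fo k v S0) := by
      have := (mem_filter.1 (hmem d).2).1
      rw [mem_powerset] at this
      exact (disjoint_sdiff.mono_right this).symm
    have s2 : Disjoint d'.1.2 (Fo k v S0) := by
      have := (mem_filter.1 (hmem d').2).1
      rw [mem_powerset] at this
      exact (disjoint_sdiff.mono_right this).symm
    ext ⟨x, y⟩
    have h3 : ((x, y) ∈ d.1.2 ∪ Fo k v S0) = ((x, y) ∈ d'.1.2 ∪ Fo k v S0) :=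
      congrFun (congrFun hE x) y
    rw [eq_iff_iff, mem_union, mem_union] at h3
    rw [disjoint_left] at s1 s2
    constructor
    · intro hx
      rcases h3.1 (Or.inl hx) with h4 | h4
      · exact h4
      · exact absurd h4 (s1 hx)
    · intro hx
      rcases h3.2 (Or.inl hx) with h4 | h4
      · exact h4
      · exact absurd h4 (s2 hx)
  obtain ⟨⟨i, E⟩, hd⟩ := d
  obtain ⟨⟨i', E'⟩, hd'⟩ := d'
  simp only at hi hEE
  subst hi hEE
  rfl

/-- Lower bound for the number of pairs in consecutive levels. -/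
lemma card_PL_ge (hk : 5 ≤ k) (h : Base k L v S0 Y0 l) :
    (univ.filter (fun p => l p = 1 ∨ l p = 3)).card *
      ((univ.filter (fun p => l p = 2)).card + 1) ≤ (PL l).card := by
  classical
  set U := univ.filter (fun p => l p = 1 ∨ l p = 3) with hU
  set Y := univ.filter (fun p => l p = 2) with hY
  have hv0 : l (v 0) = 0 := h.v_lev 0 (by omega)
  have hv4 : l (v 4) = 4 := h.v_lev 4 (by omega)
  have memU : ∀ p, p ∈ U ↔ (l p = 1 ∨ l p = 3) := by intro p; simp [hU]
  have memY : ∀ p, p ∈ Y ↔ l p = 2 := by intro p; simp [hY]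
  have h1 : (U ×ˢ Y).card ≤ ((PL l).filter (fun x => l x.1 = 1 ∨ l x.1 = 2)).card := by
    apply card_le_card_of_injOn (fun x => if l x.1 = 1 then x else (x.2, x.1))
    · intro x hx
      rw [mem_coe, mem_product, memU, memY] at hx
      rw [mem_coe, mem_filter, mem_PL]
      by_cases hc : l x.1 = 1
      · simp only [if_pos hc]
        omega
      · simp only [if_neg hc]
        omega
    · intro x hx y hy hxy
      rw [mem_coe, mem_product, memU, memY] at hx hy
      by_cases hc : l x.1 = 1 <;> by_cases hc' : l y.1 = 1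
      · simpa [hc, hc'] using hxy
      · simp only [hc, hc', if_true, if_false] at hxy
        have e1 := congrArg Prod.fst hxy
        simp only at e1
        rw [e1] at hx
        omega
      · simp only [hc, hc', if_true, if_false] at hxy
        have e1 := congrArg Prod.fst hxy
        simp only at e1
        rw [← e1] at hy
        omega
      · simp only [hc, hc', if_false] at hxy
        have e1 := congrArg Prod.fst hxy
        have e2 := congrArg Prod.snd hxy
        exact Prod.ext e2 e1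
  have h2 : U.card ≤ ((PL l).filter (fun x => l x.1 = 0 ∨ l x.1 = 3)).card := by
    apply card_le_card_of_injOn (fun u => if l u = 1 then (v 0, u) else (u, v 4))
    · intro x hx
      rw [mem_coe, memU] at hx
      rw [mem_coe, mem_filter, mem_PL]
      by_cases hc : l x = 1
      · simp only [if_pos hc]
        omega
      · simp only [if_neg hc]
        omega
    · intro x hx y hy hxy
      rw [mem_coe, memU] at hx hy
      by_cases hc : l x = 1 <;> by_cases hc' : l y = 1
      · simp only [hc, hc', if_true] at hxy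
        exact congrArg Prod.snd hxy
      · simp only [hc, hc', if_true, if_false] at hxy
        have e1 := congrArg Prod.snd hxy
        simp only at e1
        rw [e1] at hx
        omega
      · simp only [hc, hc', if_true, if_false] at hxy
        have e1 := congrArg Prod.snd hxy
        simp only at e1
        rw [← e1] at hy
        omega
      · simp only [hc, hc', if_false] at hxy
        exact congrArg Prod.fst hxy
  have hd : Disjoint ((PL l).filter (fun x => l x.1 = 1 ∨ l x.1 = 2))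
      ((PL l).filter (fun x => l x.1 = 0 ∨ l x.1 = 3)) := by
    rw [disjoint_left]
    intro x hx hx'
    have h3 := (mem_filter.1 hx).2
    have h4 := (mem_filter.1 hx').2
    omega
  have h3 : ((PL l).filter (fun x => l x.1 = 1 ∨ l x.1 = 2) ∪
      (PL l).filter (fun x => l x.1 = 0 ∨ l x.1 = 3)).card ≤ (PL l).card :=
    card_le_card (union_subset (filter_subset _ _) (filter_subset _ _))
  rw [card_union_of_disjoint hd] at h3
  rw [card_product] at h1
  rw [mul_add, mul_one]
  omega

lemma card_interval (n a b : ℕ) (hb : b ≤ n) :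
    (univ.filter (fun i : Fin n => a ≤ i.val ∧ i.val < b)).card = b - a := by
  have h : (univ.filter (fun i : Fin n => a ≤ i.val ∧ i.val < b)).map Fin.valEmbedding =
      Finset.Ico a b := by
    ext x
    simp only [mem_map, mem_filter, mem_univ, true_and, Fin.valEmbedding_apply, mem_Ico]
    constructor
    · rintro ⟨i, hi, rfl⟩; exact hi
    · intro hx
      exact ⟨⟨x, by omega⟩, hx, rfl⟩
  rw [← card_map Fin.valEmbedding, h, Nat.card_Ico]

/-- The level functions used. -/
def lf (k L Q' : ℕ) (x : Σ _ : Finset (Fin n), Finset (Fin n)) (p : Fin n) : ℕ :=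
  if p.val < k then p.val else if p.val < k + L then 1 else if p.val < k + L + Q' then 2 else
    if p ∈ x.1 then 2 else if p ∈ x.2 then 1 else 3

lemma a_lower (k L h t : ℕ) (hk : 5 ≤ k) (ht : t ≤ 1) (hn : n = k + 2 * L + 1 + t + 2 * h)
    (hL : 2 * n ≤ 2 ^ L) :
    (2 * h).choose h * 2 ^ h * 2 ^ ((L + h + 2) * (L + h + 3 + t) - (L + k)) ≤ 2 * a k n := by
  classical
  set Q' := L + 1 + t with hQ'
  set S0 : Finset (Fin n) := univ.filter (fun i => k ≤ i.val ∧ i.val < k + L) with hS0
  set Y0 : Finset (Fin n) := univ.filter (fun i => k + L ≤ i.val ∧ i.val < k + L + Q') with hY0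
  set R : Finset (Fin n) := univ.filter (fun i => k + L + Q' ≤ i.val ∧ i.val < n) with hR
  have cS : S0.card = L := by rw [hS0, card_interval n k (k + L) (by omega)]; omega
  have cY : Y0.card = Q' := by
    rw [hY0, card_interval n (k + L) (k + L + Q') (by omega)]; omega
  have cR : R.card = 2 * h := by
    rw [hR, card_interval n (k + L + Q') n le_rfl]; omega
  have memR : ∀ p : Fin n, p ∈ R ↔ k + L + Q' ≤ p.val := by
    intro p
    have := p.2
    simp only [hR, mem_filter, mem_univ, true_and]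
    omega
  have memS : ∀ p : Fin n, p ∈ S0 ↔ k ≤ p.val ∧ p.val < k + L := by
    intro p
    simp only [hS0, mem_filter, mem_univ, true_and]
  have memY : ∀ p : Fin n, p ∈ Y0 ↔ k + L ≤ p.val ∧ p.val < k + L + Q' := by
    intro p
    simp only [hY0, mem_filter, mem_univ, true_and]
  let v : ℕ → Fin n := fun j => ⟨j % n, Nat.mod_lt _ (by omega)⟩
  have hv : ∀ j, j < k → (v j).val = j := by
    intro j hj
    exact Nat.mod_eq_of_lt (by omega)
  set I : Finset (Σ _ : Finset (Fin n), Finset (Fin n)) :=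
    (powersetCard h R).sigma (fun Y' => (R \ Y').powerset) with hI
  have hbase : ∀ x : (Σ _ : Finset (Fin n), Finset (Fin n)),
      Base k L v S0 Y0 (lf k L Q' x) := by
    intro x
    refine ⟨?_, ?_, ?_, ?_, ?_, ?_, cS, by omega⟩
    · intro p; unfold lf; split_ifs <;> omega
    · intro j hj
      unfold lf
      rw [hv j hj, if_pos hj]
    · intro p hp
      unfold lf at hp
      apply Fin.ext
      rw [hv 0 (by omega)]
      split_ifs at hp
      exact hp
    · intro p hp
      have h1 : lf k L Q' x p = p.val ∧ p.val < k := by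
        unfold lf at hp ⊢
        split_ifs at hp ⊢ <;> omega
      rw [h1.1]
      apply Fin.ext
      rw [hv _ h1.2]
    · intro p hp
      rw [memS] at hp
      unfold lf
      rw [if_neg (by omega), if_pos (by omega)]
    · intro p hp
      rw [memY] at hp
      unfold lf
      rw [if_neg (by omega), if_neg (by omega), if_pos (by omega)]
  have hRlev : ∀ x : (Σ _ : Finset (Fin n), Finset (Fin n)), ∀ p ∈ R, lf k L Q' x p =
      if p ∈ x.1 then 2 else if p ∈ x.2 then 1 else 3 := by
    intro x p hp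
    rw [memR] at hp
    unfold lf
    rw [if_neg (by omega), if_neg (by omega), if_neg (by omega)]
  have hinj : ∀ i ∈ I, ∀ j ∈ I, lf k L Q' i = lf k L Q' j → i = j := by
    intro i hi j hj hij
    rw [hI, mem_sigma, mem_powersetCard, mem_powerset] at hi hj
    have e1 : i.1 = j.1 := by
      ext p
      constructor
      · intro hp
        by_contra hp'
        have := congrFun hij p
        rw [hRlev _ _ (hi.1.1 hp), hRlev _ _ (hi.1.1 hp), if_pos hp, if_neg hp'] at this
        split_ifs at this <;> omega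
      · intro hp
        by_contra hp'
        have := congrFun hij p
        rw [hRlev _ _ (hj.1.1 hp), hRlev _ _ (hj.1.1 hp), if_pos hp, if_neg hp'] at this
        split_ifs at this <;> omega
    have e2 : i.2 = j.2 := by
      ext p
      constructor
      · intro hp
        by_contra hp'
        have h1 := hi.2 hp
        rw [mem_sdiff] at h1
        have := congrFun hij p
        rw [hRlev _ _ h1.1, hRlev _ _ h1.1, if_neg h1.2, if_pos hp, if_neg (by rw [← e1]; exact h1.2),
          if_neg hp'] at this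
        omega
      · intro hp
        by_contra hp'
        have h1 := hj.2 hp
        rw [mem_sdiff] at h1
        have := congrFun hij p
        rw [hRlev _ _ h1.1, hRlev _ _ h1.1, if_neg (by rw [e1]; exact h1.2), if_neg hp', if_neg h1.2,
          if_pos hp] at this
        omega
    obtain ⟨i1, i2⟩ := i
    obtain ⟨j1, j2⟩ := j
    simp only at e1 e2
    subst e1 e2
    rfl
  have hfam := family_le (n := n) (k := k) (L := L) (v := v) (S0 := S0) (Y0 := Y0) hk I
    (lf k L Q') (fun i _ => hbase i) hinj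
  -- each term
  have hterm : ∀ i ∈ I, 2 ^ ((L + h + 2) * (L + h + 3 + t) - (L + k)) ≤
      2 * (good k v S0 Y0 (lf k L Q' i)).card := by
    intro i hi
    rw [hI, mem_sigma, mem_powersetCard, mem_powerset] at hi
    refine le_trans ?_ (card_good hk (hbase i) hL)
    apply Nat.pow_le_pow_right (by norm_num)
    have h1 := card_PL_ge hk (hbase i)
    have h2 := card_Fo_le (k := k) (v := v) cS
    have h3 : (PL (lf k L Q' i)).card - (Fo k v S0).card ≤
        (PL (lf k L Q' i) \ Fo k v S0).card := le_card_sdiff _ _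
    have h4 : L + h + 2 ≤
        (univ.filter (fun p => lf k L Q' i p = 1 ∨ lf k L Q' i p = 3)).card := by
      have hsub : ({v 1, v 3} : Finset (Fin n)) ∪ (S0 ∪ (R \ i.1)) ⊆
          univ.filter (fun p => lf k L Q' i p = 1 ∨ lf k L Q' i p = 3) := by
        intro p hp
        simp only [mem_union, mem_insert, mem_singleton, mem_sdiff] at hp
        rw [mem_filter]
        refine ⟨mem_univ _, ?_⟩
        rcases hp with (hp | hp) | hp | hp
        · left; rw [hp]; exact (hbase i).v_lev 1 (by omega)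
        · right; rw [hp]; exact (hbase i).v_lev 3 (by omega)
        · left; exact (hbase i).S_lev p hp
        · rw [hRlev _ _ hp.1, if_neg hp.2]
          split_ifs
          · left; rfl
          · right; rfl
      have hne : v 1 ≠ v 3 := by
        intro h
        have := congrArg Fin.val h
        rw [hv 1 (by omega), hv 3 (by omega)] at this
        omega
      have hd1 : Disjoint S0 (R \ i.1) := by
        rw [disjoint_left]
        intro p hp hp'
        rw [memS] at hp
        rw [mem_sdiff, memR] at hp'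
        omega
      have hd2 : Disjoint ({v 1, v 3} : Finset (Fin n)) (S0 ∪ (R \ i.1)) := by
        rw [disjoint_left]
        intro p hp hp'
        rw [mem_insert, mem_singleton] at hp
        rw [mem_union, memS, mem_sdiff, memR] at hp'
        have : p.val < k := by
          rcases hp with rfl | rfl
          · rw [hv 1 (by omega)]; omega
          · rw [hv 3 (by omega)]; omega
        omega
      have := card_le_card hsub
      rw [card_union_of_disjoint hd2, card_union_of_disjoint hd1, card_pair hne, cS,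
        card_sdiff_of_subset hi.1.1, cR, hi.1.2] at this
      omega
    have h5 : L + h + 2 + t ≤ (univ.filter (fun p => lf k L Q' i p = 2)).card := by
      have hsub : ({v 2} : Finset (Fin n)) ∪ (Y0 ∪ i.1) ⊆
          univ.filter (fun p => lf k L Q' i p = 2) := by
        intro p hp
        simp only [mem_union, mem_singleton] at hp
        rw [mem_filter]
        refine ⟨mem_univ _, ?_⟩
        rcases hp with hp | hp | hp
        · rw [hp]; exact (hbase i).v_lev 2 (by omega)
        · exact (hbase i).Y_lev p hp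
        · rw [hRlev _ _ (hi.1.1 hp), if_pos hp]
      have hd1 : Disjoint Y0 i.1 := by
        rw [disjoint_left]
        intro p hp hp'
        rw [memY] at hp
        have := hi.1.1 hp'
        rw [memR] at this
        omega
      have hd2 : Disjoint ({v 2} : Finset (Fin n)) (Y0 ∪ i.1) := by
        rw [disjoint_left]
        intro p hp hp'
        rw [mem_singleton] at hp
        have hlt : p.val < k := by rw [hp, hv 2 (by omega)]; omega
        rw [mem_union, memY] at hp'
        rcases hp' with h6 | h6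
        · omega
        · have := hi.1.1 h6
          rw [memR] at this
          omega
      have := card_le_card hsub
      rw [card_union_of_disjoint hd2, card_union_of_disjoint hd1, card_singleton, cY,
        hi.1.2] at this
      omega
    have h6 : (L + h + 2) * (L + h + 3 + t) ≤ (PL (lf k L Q' i)).card := by
      refine le_trans ?_ h1
      apply Nat.mul_le_mul h4
      omega
    omega
  have hcard : I.card = (2 * h).choose h * 2 ^ h := by
    rw [hI, card_sigma]
    have : ∀ Y' ∈ powersetCard h R, ((R \ Y').powerset).card = 2 ^ h := by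
      intro Y' hY'
      rw [mem_powersetCard] at hY'
      rw [card_powerset, card_sdiff_of_subset hY'.1, cR, hY'.2]
      congr 1
      omega
    rw [sum_congr rfl this, sum_const, card_powersetCard, cR, smul_eq_mul]
  calc (2 * h).choose h * 2 ^ h * 2 ^ ((L + h + 2) * (L + h + 3 + t) - (L + k)) =
      ∑ _i ∈ I, 2 ^ ((L + h + 2) * (L + h + 3 + t) - (L + k)) := by
        rw [sum_const, smul_eq_mul, hcard]
    _ ≤ ∑ i ∈ I, 2 * (good k v S0 Y0 (lf k L Q' i)).card := sum_le_sum hterm
    _ = 2 * ∑ i ∈ I, (good k v S0 Y0 (lf k L Q' i)).card := by rw [mul_sum]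
    _ ≤ 2 * a k n := Nat.mul_le_mul_left _ hfam

end lower

/-! ### The asymptotic statement -/

section final

lemma cst_pos (k : ℕ) : 0 < Cst k := by
  unfold Cst
  positivity

/-- The error term. -/
noncomputable def err (k n : ℕ) : ℝ :=
  Real.logb 2 (a k n) - ((n : ℝ) ^ 2 / 4 + (1 - ((k : ℝ) - 5) / 2) * n)

lemma err_upper (k n : ℕ) (hk : 5 ≤ k) (hn : k ≤ n) (ha : 0 < a k n) :
    err k n ≤ k * Real.logb 2 n + (Real.logb 2 (Cst k) + ((k : ℝ) - 1) ^ 2 / 4) := by
  have h := a_upper k n (by omega)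
  have hn0 : (0 : ℝ) < n := by exact_mod_cast (show 0 < n by omega)
  have ha' : (0 : ℝ) < a k n := by exact_mod_cast ha
  have hc := cst_pos k
  have h1 : Real.logb 2 (a k n) ≤ Real.logb 2 ((n : ℝ) ^ k * (2 ^ (2 * n) *
      (Cst k * (2 ^ (n - k) * 2 ^ ((n - k + 1) ^ 2 / 4))))) :=
    Real.logb_le_logb_of_le (by norm_num) ha' h
  have e2 : ∀ m : ℕ, Real.logb 2 ((2 : ℝ) ^ m) = m := by
    intro m
    rw [Real.logb_pow, Real.logb_self_eq_one (by norm_num), mul_one]
  rw [Real.logb_mul (by positivity) (by positivity), Real.logb_mul (by positivity) (by positivity),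
    Real.logb_mul (by positivity) (by positivity), Real.logb_mul (by positivity) (by positivity),
    e2, e2, e2, Real.logb_pow] at h1
  have h2 : (((n - k + 1) ^ 2 / 4 : ℕ) : ℝ) ≤ ((n : ℝ) - k + 1) ^ 2 / 4 := by
    refine (Nat.cast_div_le).trans ?_
    push_cast [Nat.cast_sub hn]
    exact le_rfl
  have h3 : ((n - k : ℕ) : ℝ) = (n : ℝ) - k := by push_cast [Nat.cast_sub hn]; ring
  rw [h3] at h1
  push_cast at h1 h2
  have hk0 : (0 : ℝ) ≤ k := by positivity
  unfold err
  nlinarith

lemma two_log_le (n : ℕ) (hn : 16 ≤ n) : 4 * Nat.log 2 n ≤ n := by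
  have h1 : 2 ^ Nat.log 2 n ≤ n := Nat.pow_log_le_self 2 (by omega)
  have h2 : ∀ j : ℕ, 4 * j ≤ 2 ^ j ∨ j ≤ 3 := by
    intro j
    by_cases hj : j ≤ 3
    · exact Or.inr hj
    · left
      push Not at hj
      have hj' : 4 ≤ j := hj
      clear hj
      induction j, hj' using Nat.le_induction with
      | base => norm_num
      | succ j hj ih => rw [pow_succ]; omega
  rcases h2 (Nat.log 2 n) with h | h <;> omega

lemma err_lower (k n : ℕ) (hk : 5 ≤ k) (hn : 2 * k + 16 ≤ n) :
    0 < a k n ∧ -(5 * Real.logb 2 n + (9 / 2 * (k : ℝ) + 9)) ≤ err k n := by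
  set L := Nat.log 2 n + 2 with hL
  have hlog := two_log_le n (by omega)
  set r := n - (k + 2 * L + 1) with hr
  set t := r % 2 with ht
  set h := r / 2 with hh
  have ht1 : t ≤ 1 := by omega
  have hnr : n = k + 2 * L + 1 + t + 2 * h := by omega
  have hh1 : 1 ≤ h := by omega
  have hL2 : 2 * n ≤ 2 ^ L := by
    have := Nat.lt_pow_succ_log_self (b := 2) (by norm_num) n
    rw [hL, pow_succ]
    rw [Nat.succ_eq_add_one] at this
    omega
  have h1 := a_lower (n := n) k L h t hk ht1 hnr hL2
  have h2 : 4 ^ h ≤ n * (2 * h).choose h := by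
    have h3 := Nat.four_pow_le_two_mul_self_mul_centralBinom h (by omega)
    rw [Nat.centralBinom_eq_two_mul_choose] at h3
    exact h3.trans (Nat.mul_le_mul_right _ (by omega))
  set E := (L + h + 2) * (L + h + 3 + t) - (L + k) with hE
  have h4 : 4 ^ h * 2 ^ h * 2 ^ E ≤ n * (2 * a k n) := by
    calc 4 ^ h * 2 ^ h * 2 ^ E ≤ (n * (2 * h).choose h) * 2 ^ h * 2 ^ E := by gcongr
      _ = n * ((2 * h).choose h * 2 ^ h * 2 ^ E) := by ring
      _ ≤ _ := Nat.mul_le_mul_left _ h1
  have h5 : 2 ^ (3 * h + E) ≤ n * (2 * a k n) := by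
    refine le_trans (le_of_eq ?_) h4
    rw [show (4 : ℕ) = 2 ^ 2 by norm_num, ← pow_mul, ← pow_add, ← pow_add]
    congr 1
    ring
  have ha : 0 < a k n := by
    rcases Nat.eq_zero_or_pos (a k n) with h0 | h0
    · rw [h0] at h5
      have : 0 < 2 ^ (3 * h + E) := by positivity
      omega
    · exact h0
  refine ⟨ha, ?_⟩
  have ha' : (0 : ℝ) < a k n := by exact_mod_cast ha
  have hn0 : (0 : ℝ) < n := by exact_mod_cast (show 0 < n by omega)
  have h6 : (2 : ℝ) ^ (3 * h + E) ≤ n * (2 * a k n) := by exact_mod_cast h5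
  have h7 : ((3 * h + E : ℕ) : ℝ) ≤ Real.logb 2 n + (1 + Real.logb 2 (a k n)) := by
    have := Real.logb_le_logb_of_le (b := 2) (by norm_num) (by positivity) h6
    rw [Real.logb_pow, Real.logb_self_eq_one (by norm_num), mul_one,
      Real.logb_mul (by positivity) (by positivity), Real.logb_mul (by norm_num) (by positivity),
      Real.logb_self_eq_one (by norm_num)] at this
    exact this
  have h8 : ((L : ℝ) + h + 2) * ((L : ℝ) + h + 3 + t) - (L + k) ≤ (E : ℝ) := by
    have : (L + h + 2) * (L + h + 3 + t) ≤ E + (L + k) := by omega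
    have h9 : (((L + h + 2) * (L + h + 3 + t) : ℕ) : ℝ) ≤ ((E + (L + k) : ℕ) : ℝ) := by
      exact_mod_cast this
    push_cast at h9
    linarith
  push_cast at h7
  have h9 : (n : ℝ) = k + 2 * L + 1 + t + 2 * h := by
    rw [hnr]
    push_cast
    ring
  have hLr : (L : ℝ) ≤ Real.logb 2 n + 2 := by
    rw [hL]
    push_cast
    have h10 : (2 : ℝ) ^ (Nat.log 2 n) ≤ n := by
      exact_mod_cast Nat.pow_log_le_self 2 (show n ≠ 0 by omega)
    have h11 := Real.logb_le_logb_of_le (b := 2) (by norm_num) (by positivity) h10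
    rw [Real.logb_pow, Real.logb_self_eq_one (by norm_num), mul_one] at h11
    linarith
  have ht0 : (0 : ℝ) ≤ t := by positivity
  have ht2 : (t : ℝ) ≤ 1 := by exact_mod_cast ht1
  unfold err
  have hh2 : (h : ℝ) = (n - k - 2 * L - 1 - t) / 2 := by linarith
  rw [hh2] at h7 h8
  have hk2 : (0 : ℝ) ≤ (k : ℝ) ^ 2 := by positivity
  have key : (3 * (((n : ℝ) - k - 2 * L - 1 - t) / 2) +
      (((L : ℝ) + ((n : ℝ) - k - 2 * L - 1 - t) / 2 + 2) *
        ((L : ℝ) + ((n : ℝ) - k - 2 * L - 1 - t) / 2 + 3 + t) - (L + k))) =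
      (n : ℝ) ^ 2 / 4 + (1 - ((k : ℝ) - 5) / 2) * n + (k : ℝ) ^ 2 / 4 - 9 / 2 * k -
        4 * L + 4 - (1 + t) ^ 2 / 4 - 3 * (1 + t) / 2 := by ring
  have h12 : (1 + (t : ℝ)) ^ 2 ≤ 4 := by nlinarith
  linarith

/-- **Main theorem.** For each fixed `k ≥ 5`,
`log₂ a_k(n) = n²/4 + (1 - (k-5)/2) n + O(log n)` as `n → ∞`. -/
theorem result (k : ℕ) (hk : 5 ≤ k) :
    (fun n : ℕ => Real.logb 2 (a k n) - ((n : ℝ) ^ 2 / 4 + (1 - ((k : ℝ) - 5) / 2) * n))
      =O[Filter.atTop] (fun n : ℕ => Real.log n) := by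
  set c1 : ℝ := |Real.logb 2 (Cst k) + ((k : ℝ) - 1) ^ 2 / 4| with hc1
  rw [Asymptotics.isBigO_iff]
  refine ⟨((k : ℝ) + 5 + c1 + (9 / 2 * k + 9)) / Real.log 2, ?_⟩
  filter_upwards [Filter.eventually_ge_atTop (2 * k + 16)] with n hn
  obtain ⟨ha, hlow⟩ := err_lower k n hk hn
  have hup := err_upper k n hk (by omega) ha
  have hn2 : (2 : ℝ) ≤ n := by exact_mod_cast (show 2 ≤ n by omega)
  have hlog2 : 0 < Real.log 2 := Real.log_pos (by norm_num)
  have hlogn : Real.log 2 ≤ Real.log n := Real.log_le_log (by norm_num) hn2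
  have hb1 : 1 ≤ Real.logb 2 n := by
    rw [Real.logb, le_div_iff₀ hlog2]
    linarith
  have hc0 : 0 ≤ c1 := abs_nonneg _
  have hk0 : (0 : ℝ) ≤ k := by positivity
  have hc1' : Real.logb 2 (Cst k) + ((k : ℝ) - 1) ^ 2 / 4 ≤ c1 := le_abs_self _
  have habs : |err k n| ≤ ((k : ℝ) + 5 + c1 + (9 / 2 * k + 9)) * Real.logb 2 n := by
    rw [abs_le]
    constructor
    · nlinarith
    · nlinarith
  rw [Real.norm_eq_abs, Real.norm_eq_abs, abs_of_nonneg (show 0 ≤ Real.log n by linarith)]
  have e : ((k : ℝ) + 5 + c1 + (9 / 2 * k + 9)) / Real.log 2 * Real.log n =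
      ((k : ℝ) + 5 + c1 + (9 / 2 * k + 9)) * Real.logb 2 n := by
    rw [Real.logb]
    ring
  rw [e]
  exact habs

end final

end Pool.Agent.Results.MP_ac85ec_co.FiveLevels
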